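import Pool.Agent.H442R2.KF.Inc

/-! The Fourier expansion of boxes modulo `p`. -/

set_option autoImplicit false

namespace Run7.h914.MC

open Finset

variable {p : ℕ} [Fact p.Prime]

/-- the indicator function of an interval of residues -/
noncomputable def iv (α : ZMod p) (l : ℕ) (y : ZMod p) : ℂ := if (y - α).val < l then 1 else 0

/-- its Fourier coefficients -/
noncomputable def ivc (α : ZMod p) (l : ℕ) (w : ZMod p) : ℂ :=
  (p : ℂ)⁻¹ * ∑ v : ZMod p, ZMod.stdAddChar (-(v * w)) * iv α l v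

theorem iv_inv (α : ZMod p) (l : ℕ) (y : ZMod p) : iv α l y = ∑ w : ZMod p, ivc α l w * ZMod.stdAddChar (w * y) := by
  have h1 := congrFun ((ZMod.dft (N := p) (E := ℂ)).symm_apply_apply (iv α l)) y
  rw [ZMod.invDFT_apply] at h1
  rw [← h1]
  simp only [smul_eq_mul, ZMod.dft_apply]
  rw [mul_sum]
  apply sum_congr rfl
  intro w _
  unfold ivc
  ring

theorem iv_sum (α : ZMod p) {l : ℕ} (hl : l ≤ p) (g : ZMod p → ℂ) :
    ∑ v : ZMod p, g v * iv α l v = ∑ j ∈ range l, g (α + (j : ZMod p)) := by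
  unfold iv
  simp only [mul_ite, mul_one, mul_zero]
  rw [← sum_filter]
  refine sum_bij' (fun v _ => (v - α).val) (fun j _ => α + (j : ZMod p)) ?_ ?_ ?_ ?_ ?_
  · intro v hv
    rw [mem_filter] at hv
    exact mem_range.2 hv.2
  · intro j hj
    rw [mem_range] at hj
    rw [mem_filter, add_sub_cancel_left, ZMod.val_natCast_of_lt (lt_of_lt_of_le hj hl)]
    exact ⟨mem_univ _, hj⟩
  · intro v _
    rw [ZMod.natCast_zmod_val, add_sub_cancel]
  · intro j hj
    rw [mem_range] at hj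
    rw [add_sub_cancel_left, ZMod.val_natCast_of_lt (lt_of_lt_of_le hj hl)]
  · intro v _
    rw [ZMod.natCast_zmod_val, add_sub_cancel]

theorem ivc_zero (α : ZMod p) {l : ℕ} (hl : l ≤ p) : ivc α l 0 = (l : ℂ) / p := by
  unfold ivc
  rw [iv_sum α hl (fun v => ZMod.stdAddChar (-(v * 0)))]
  simp only [mul_zero, neg_zero, AddChar.map_zero_eq_one, sum_const, card_range, nsmul_eq_mul, mul_one]
  ring

theorem ivc_L1 (α : ZMod p) {l : ℕ} (hl : l ≤ p) : ∑ w : ZMod p, ‖ivc α l w‖ ≤ 2 + Real.log p := by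
  have hp0 : (0 : ℝ) < p := by exact_mod_cast (Fact.out : p.Prime).pos
  have h1 : ∀ w : ZMod p, ‖ivc α l w‖ = (p : ℝ)⁻¹ * ‖∑ k ∈ range l, ZMod.stdAddChar ((-w) * (k : ZMod p))‖ := by
    intro w
    unfold ivc
    rw [iv_sum α hl (fun v => ZMod.stdAddChar (-(v * w))), norm_mul, norm_inv, Complex.norm_natCast]
    congr 1
    have h2 : ∑ j ∈ range l, ZMod.stdAddChar (-((α + (j : ZMod p)) * w)) =
        ZMod.stdAddChar (-(α * w)) * ∑ k ∈ range l, ZMod.stdAddChar ((-w) * (k : ZMod p)) := by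
      rw [mul_sum]
      apply sum_congr rfl
      intro j _
      rw [← AddChar.map_add_eq_mul]
      congr 1
      ring
    rw [h2, norm_mul, AddChar.norm_apply, one_mul]
  rw [sum_congr rfl fun w _ => h1 w, ← mul_sum]
  have h2 : ∑ w : ZMod p, ‖∑ k ∈ range l, ZMod.stdAddChar ((-w) * (k : ZMod p))‖ =
      ∑ w : ZMod p, ‖∑ k ∈ range l, ZMod.stdAddChar (w * (k : ZMod p))‖ :=
    Fintype.sum_equiv (Equiv.neg (ZMod p)) _ _ fun w => rfl
  rw [h2]
  have h3 := Pool.Agent.H442R2.KF.Inc.sumgeom p l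
  have h4 : (l : ℝ) ≤ p := by exact_mod_cast hl
  calc (p : ℝ)⁻¹ * ∑ w : ZMod p, ‖∑ k ∈ range l, ZMod.stdAddChar (w * (k : ZMod p))‖
      ≤ (p : ℝ)⁻¹ * (p * (2 + Real.log p)) := by
        apply mul_le_mul_of_nonneg_left _ (by positivity)
        linarith
    _ = _ := by field_simp

/-- the indicator function of a box -/
noncomputable def bx {r : ℕ} (α : Fin r → ZMod p) (l : Fin r → ℕ) (y : Fin r → ZMod p) : ℂ :=
  if ∀ i, (y i - α i).val < l i then 1 else 0

theorem bx_prod {r : ℕ} (α : Fin r → ZMod p) (l : Fin r → ℕ) (y : Fin r → ZMod p) : bx α l y = ∏ i, iv (α i) (l i) (y i) := by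
  unfold bx iv
  split_ifs with h
  · rw [prod_congr rfl (fun i _ => if_pos (h i)), prod_const_one]
  · push Not at h
    obtain ⟨i, hi⟩ := h
    symm
    apply prod_eq_zero (mem_univ i)
    rw [if_neg (not_lt.2 hi)]

theorem psi_sum' {ι : Type*} (s : Finset ι) (g : ι → ZMod p) :
    (ZMod.stdAddChar (N := p)) (∑ i ∈ s, g i) = ∏ i ∈ s, (ZMod.stdAddChar (N := p)) (g i) := by
  classical
  induction s using Finset.induction_on with
  | empty => rw [Finset.sum_empty, Finset.prod_empty, AddChar.map_zero_eq_one]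
  | insert a s ha ih => rw [Finset.sum_insert ha, Finset.prod_insert ha, AddChar.map_add_eq_mul, ih]

/-- the Fourier expansion -/
theorem bx_inv {r : ℕ} (α : Fin r → ZMod p) (l : Fin r → ℕ) (y : Fin r → ZMod p) :
    bx α l y = ∑ a : Fin r → ZMod p, (∏ i, ivc (α i) (l i) (a i)) * ZMod.stdAddChar (∑ i, a i * y i) := by
  rw [bx_prod, prod_congr rfl fun i _ => iv_inv (α i) (l i) (y i), Finset.prod_univ_sum, Fintype.piFinset_univ]
  apply sum_congr rfl
  intro a _
  rw [prod_mul_distrib]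
  congr 1
  exact (psi_sum' _ _).symm

theorem bx_L1 {r : ℕ} (α : Fin r → ZMod p) {l : Fin r → ℕ} (hl : ∀ i, l i ≤ p) :
    ∑ a : Fin r → ZMod p, ‖∏ i, ivc (α i) (l i) (a i)‖ ≤ (2 + Real.log p) ^ r := by
  have h1 : ∑ a : Fin r → ZMod p, ‖∏ i, ivc (α i) (l i) (a i)‖ = ∏ i : Fin r, ∑ w : ZMod p, ‖ivc (α i) (l i) w‖ := by
    rw [Finset.prod_univ_sum, Fintype.piFinset_univ]
    apply sum_congr rfl
    intro a _
    exact norm_prod _ _
  rw [h1]
  calc ∏ i : Fin r, ∑ w : ZMod p, ‖ivc (α i) (l i) w‖ ≤ ∏ _i : Fin r, (2 + Real.log p) :=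
        prod_le_prod (fun i _ => sum_nonneg fun _ _ => norm_nonneg _) fun i _ => ivc_L1 (α i) (hl i)
    _ = _ := by rw [prod_const, card_univ, Fintype.card_fin]

end Run7.h914.MC
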