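import Pool.Agent.H442R2.KF.Inc
import Pool.Agent.Run7.h90.RW.Weil
import Pool.Agent.Run7.h914.Ratc

/-! Correlations of the phases `f (m) / g (m)` modulo a prime. -/

set_option autoImplicit false

namespace Run7.h914.MC

open Finset Polynomial

variable {p : ℕ} [Fact p.Prime]

/-- the translate `f (X + h)` -/
noncomputable def tr (h : ZMod p) (f : (ZMod p)[X]) : (ZMod p)[X] := f.comp (X + C h)

theorem tr_eval (h : ZMod p) (f : (ZMod p)[X]) (x : ZMod p) : (tr h f).eval x = f.eval (x + h) := by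
  unfold tr
  rw [eval_comp, eval_add, eval_X, eval_C]

theorem tr_mul (h : ZMod p) (f g : (ZMod p)[X]) : tr h (f * g) = tr h f * tr h g := by
  unfold tr; rw [mul_comp]

theorem tr_sub (h : ZMod p) (f g : (ZMod p)[X]) : tr h (f - g) = tr h f - tr h g := by
  unfold tr; rw [sub_comp]

theorem tr_natDegree (h : ZMod p) (f : (ZMod p)[X]) : (tr h f).natDegree = f.natDegree := by
  unfold tr
  rw [natDegree_comp, natDegree_X_add_C, mul_one]

theorem tr_leading (h : ZMod p) (f : (ZMod p)[X]) : (tr h f).leadingCoeff = f.leadingCoeff := by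
  unfold tr
  rw [leadingCoeff_comp (by rw [natDegree_X_add_C]; exact one_ne_zero), leadingCoeff_X_add_C, one_pow, mul_one]

theorem tr_ne (h : ZMod p) {f : (ZMod p)[X]} (hf : f ≠ 0) : tr h f ≠ 0 := by
  intro h0
  apply hf
  rw [← leadingCoeff_eq_zero, ← tr_leading h f, h0, leadingCoeff_zero]

/-- periodic polynomials of small degree are constant -/
theorem per_const {h : ZMod p} (hh : h ≠ 0) {f : (ZMod p)[X]} (hf : f.natDegree < p) (e : tr h f = f) :
    f = C (f.eval 0) := by
  have h1 : ∀ k : ℕ, f.eval ((k : ZMod p) * h) = f.eval 0 := by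
    intro k
    induction k with
    | zero => simp
    | succ k ih =>
      have h2 : ((k + 1 : ℕ) : ZMod p) * h = (k : ZMod p) * h + h := by push_cast; ring
      rw [h2, ← tr_eval, e, ih]
  have h2 : ∀ x : ZMod p, f.eval x = f.eval 0 := by
    intro x
    have h3 := h1 (x / h).val
    rw [ZMod.natCast_zmod_val, div_mul_cancel₀ x hh] at h3
    exact h3
  have h3 : f - C (f.eval 0) = 0 := by
    apply eq_zero_of_natDegree_lt_card_of_eval_eq_zero' (f - C (f.eval 0)) (Finset.univ : Finset (ZMod p))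
    · intro x _
      rw [eval_sub, eval_C, h2 x, sub_self]
    · rw [card_univ, ZMod.card]
      refine lt_of_le_of_lt (natDegree_sub_le _ _) ?_
      rw [natDegree_C]
      exact max_lt hf (Fact.out : p.Prime).pos
  exact sub_eq_zero.1 h3

/-- `f / g` is not a polynomial of degree at most two -/
def NotQuad (f g : (ZMod p)[X]) : Prop := ∀ q : (ZMod p)[X], q.natDegree ≤ 2 → f ≠ q * g

theorem quad_sol (hp : p ≠ 2) {h : ZMod p} (hh : h ≠ 0) (a b : ZMod p) : ∃ q : (ZMod p)[X], q.natDegree ≤ 2 ∧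
    q - tr h q = C a + C b * X := by
  have h2 : (2 : ZMod p) ≠ 0 := by
    intro h0
    have h1 : ((2 : ℕ) : ZMod p) = 0 := by exact_mod_cast h0
    rw [ZMod.natCast_eq_zero_iff] at h1
    exact hp ((Nat.prime_dvd_prime_iff_eq (Fact.out : p.Prime) Nat.prime_two).1 h1)
  set α : ZMod p := -(b / (2 * h)) with hα
  set β : ZMod p := -((a + α * h ^ 2) / h) with hβ
  refine ⟨C α * X ^ 2 + C β * X, ?_, ?_⟩
  · refine (natDegree_add_le _ _).trans (max_le ?_ ?_)
    · exact natDegree_C_mul_X_pow_le _ _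
    · exact ((natDegree_C_mul_le _ _).trans natDegree_X_le).trans (by norm_num)
  · unfold tr
    simp only [add_comp, mul_comp, C_comp, pow_comp, X_comp]
    have e1 : b = -(2 * α * h) := by
      rw [hα]; field_simp
    have e2 : a = -(α * h ^ 2 + β * h) := by
      rw [hβ]; field_simp; ring
    have e3 : (C b : (ZMod p)[X]) = -(C 2 * C α * C h) := by
      rw [← C_mul, ← C_mul, ← C_neg]; exact congrArg C e1
    have e4 : (C a : (ZMod p)[X]) = -(C α * C h ^ 2 + C β * C h) := by
      rw [← C_pow, ← C_mul, ← C_mul, ← C_add, ← C_neg]; exact congrArg C e2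
    rw [e3, e4]
    have e5 : (C (2 : ZMod p) : (ZMod p)[X]) = 2 := by
      have := map_ofNat (C : ZMod p →+* (ZMod p)[X]) 2
      exact this
    rw [e5]
    ring

/-- the main algebraic lemma, for coprime polynomials -/
theorem diff_coprime (hp : p ≠ 2) {f g : (ZMod p)[X]} (hg : g ≠ 0) (hco : IsCoprime f g)
    (hfd : f.natDegree < p) (hgd : g.natDegree < p) (hp3 : 2 < p) {h : ZMod p} (hh : h ≠ 0) (a b : ZMod p)
    (e : f * tr h g - tr h f * g = (C a + C b * X) * (g * tr h g)) : ∃ q : (ZMod p)[X], q.natDegree ≤ 2 ∧ f = q * g := by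
  have h1 : g ∣ f * tr h g := by
    refine ⟨tr h f + (C a + C b * X) * tr h g, ?_⟩
    linear_combination e
  have h2 : g ∣ tr h g := hco.symm.dvd_of_dvd_mul_left h1
  have h3 : tr h g = g := by
    obtain ⟨c, hc⟩ := h2
    have hc0 : c ≠ 0 := by
      rintro rfl
      rw [mul_zero] at hc
      exact tr_ne h hg hc
    have h4 : c.natDegree = 0 := by
      have h5 := tr_natDegree h g
      rw [hc, natDegree_mul hg hc0] at h5
      omega
    obtain ⟨k, rfl⟩ : ∃ k, c = C k := ⟨_, eq_C_of_natDegree_eq_zero h4⟩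
    have h6 := tr_leading h g
    rw [hc, leadingCoeff_mul, leadingCoeff_C] at h6
    have h7 : g.leadingCoeff ≠ 0 := leadingCoeff_ne_zero.2 hg
    have h8 : k = 1 := by
      have : g.leadingCoeff * k = g.leadingCoeff * 1 := by rw [h6, mul_one]
      exact mul_left_cancel₀ h7 this
    rw [hc, h8, C_1, mul_one]
  have h4 := per_const hh hgd h3
  set s := g.eval 0 with hs
  have hs0 : s ≠ 0 := by
    intro h0
    rw [h0, C_0] at h4
    exact hg h4
  have h5 : f - tr h f = C (a * s) + C (b * s) * X := by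
    rw [h3] at e
    have h6 : (f - tr h f) * g = ((C a + C b * X) * g) * g := by
      rw [← mul_assoc] at e
      linear_combination e
    have h7 := mul_right_cancel₀ hg h6
    rw [h7, h4, C_mul, C_mul]
    ring
  obtain ⟨q, hq1, hq2⟩ := quad_sol hp hh (a * s) (b * s)
  have h6 : tr h (f - q) = f - q := by
    rw [tr_sub]
    have h7 : f - tr h f = q - tr h q := by rw [h5, hq2]
    linear_combination -h7
  have h7 := per_const hh (f := f - q) (lt_of_le_of_lt (natDegree_sub_le _ _) (max_lt hfd (by omega))) h6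
  refine ⟨C s⁻¹ * (q + C ((f - q).eval 0)), ?_, ?_⟩
  · refine (natDegree_C_mul_le _ _).trans ((natDegree_add_le _ _).trans (max_le hq1 ?_))
    rw [natDegree_C]; omega
  · have h8 : f = q + C ((f - q).eval 0) := by linear_combination h7
    conv_rhs => rw [← h8, h4]
    have h9 : (C s⁻¹ : (ZMod p)[X]) * C s = 1 := by
      rw [← C_mul, inv_mul_cancel₀ hs0, C_1]
    linear_combination (-f) * h9

/-- the main algebraic lemma -/
theorem diff_not_lin (hp : p ≠ 2) (hp3 : 2 < p) {f g : (ZMod p)[X]} (hg : g ≠ 0)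
    (hfd : f.natDegree < p) (hgd : g.natDegree < p) (hq : NotQuad f g) {h : ZMod p} (hh : h ≠ 0) (a b : ZMod p) :
    f * tr h g - tr h f * g ≠ (C a + C b * X) * (g * tr h g) := by
  intro e
  obtain ⟨c, f', g', hf', hg', hco⟩ := Run7.h914.exists_coprime f g hg
  have hc0 : c ≠ 0 := by rintro rfl; apply hg; rw [hg', zero_mul]
  have hg'0 : g' ≠ 0 := by rintro rfl; apply hg; rw [hg', mul_zero]
  have hf0 : f ≠ 0 := by
    rintro rfl
    exact hq 0 (by simp) (by simp)
  have hf'0 : f' ≠ 0 := by rintro rfl; apply hf0; rw [hf', mul_zero]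
  have hd1 : f'.natDegree ≤ f.natDegree := by
    rw [hf', natDegree_mul hc0 hf'0]; omega
  have hd2 : g'.natDegree ≤ g.natDegree := by
    rw [hg', natDegree_mul hc0 hg'0]; omega
  have h1 : (c * tr h c) * (f' * tr h g' - tr h f' * g') = (c * tr h c) * ((C a + C b * X) * (g' * tr h g')) := by
    rw [hf', hg', tr_mul, tr_mul] at e
    linear_combination e
  have h2 := mul_left_cancel₀ (mul_ne_zero hc0 (tr_ne h hc0)) h1
  obtain ⟨q, hq1, hq2⟩ := diff_coprime hp hg'0 hco (lt_of_le_of_lt hd1 hfd) (lt_of_le_of_lt hd2 hgd) hp3 hh a b h2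
  apply hq q hq1
  rw [hf', hg', hq2]
  ring

/-- the phase -/
noncomputable def ph (f g : (ZMod p)[X]) (x : ZMod p) : ℂ := ZMod.stdAddChar (f.eval x / g.eval x)

theorem ph_norm (f g : (ZMod p)[X]) (x : ZMod p) : ‖ph f g x‖ = 1 := AddChar.norm_apply _ _

/-- the complete sums of the correlations -/
theorem corr_complete (hp3 : 2 < p) {f g : (ZMod p)[X]} (hg : g ≠ 0) {D : ℕ}
    (hfd : f.natDegree ≤ D) (hgd : g.natDegree ≤ D) (hD : 2 * D + 1 < p) (hq : NotQuad f g) {h : ZMod p} (hh : h ≠ 0)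
    (w : ZMod p) :
    ‖∑ x : ZMod p, ZMod.stdAddChar (-(x * w)) * (ph f g x * (starRingEnd ℂ) (ph f g (x + h)))‖ ≤
      (2 * (2 * D + 1) : ℝ) * Real.sqrt p + 2 * D := by
  classical
  set Q : (ZMod p)[X] := g * tr h g with hQ
  set M : (ZMod p)[X] := f * tr h g - tr h f * g - C w * X * Q with hM
  have hQ0 : Q ≠ 0 := mul_ne_zero hg (tr_ne h hg)
  have hQd : Q.natDegree ≤ 2 * D := by
    rw [hQ]
    refine natDegree_mul_le.trans ?_
    rw [tr_natDegree]; omega
  have hMd : M.natDegree ≤ 2 * D + 1 := by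
    rw [hM]
    refine (natDegree_sub_le _ _).trans (max_le ((natDegree_sub_le _ _).trans (max_le ?_ ?_)) ?_)
    · refine natDegree_mul_le.trans ?_
      rw [tr_natDegree]; omega
    · refine natDegree_mul_le.trans ?_
      rw [tr_natDegree]; omega
    · refine natDegree_mul_le.trans ?_
      have := (natDegree_C_mul_le w (X : (ZMod p)[X])).trans natDegree_X_le
      omega
  have hnc : ∀ c : ZMod p, M ≠ C c * Q := by
    intro c hc
    apply diff_not_lin (by omega) hp3 hg (by omega) (by omega) hq hh c w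
    rw [hM] at hc
    linear_combination hc
  have hW := Pool.Agent.Run7.h90.RW.weil_rat p M Q hQ0 (2 * D + 1) hMd (by omega) hD hnc (ZMod.isPrimitive_stdAddChar p)
  have hterm : ∀ x : ZMod p, ¬ Q.eval x = 0 → ZMod.stdAddChar (-(x * w)) * (ph f g x * (starRingEnd ℂ) (ph f g (x + h))) =
      ZMod.stdAddChar (M.eval x / Q.eval x) := by
    intro x hx
    have hx' : g.eval x ≠ 0 ∧ g.eval (x + h) ≠ 0 := by
      rw [hQ, eval_mul, tr_eval] at hx
      exact ⟨fun h0 => hx (by rw [h0, zero_mul]), fun h0 => hx (by rw [h0, mul_zero])⟩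
    have e1 : M.eval x / Q.eval x = -(x * w) + (f.eval x / g.eval x + -(f.eval (x + h) / g.eval (x + h))) := by
      rw [hM, hQ]
      simp only [eval_sub, eval_mul, eval_C, eval_X, tr_eval]
      field_simp [hx'.1, hx'.2]
      ring
    rw [e1, AddChar.map_add_eq_mul, AddChar.map_add_eq_mul]
    congr 2
    unfold ph
    rw [AddChar.map_neg_eq_conj]
  have hsplit : ∑ x : ZMod p, ZMod.stdAddChar (-(x * w)) * (ph f g x * (starRingEnd ℂ) (ph f g (x + h))) =
      (∑ x : ZMod p, if Q.eval x = 0 then (0 : ℂ) else ZMod.stdAddChar (M.eval x / Q.eval x)) +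
      ∑ x ∈ Finset.univ.filter (fun x : ZMod p => Q.eval x = 0),
        ZMod.stdAddChar (-(x * w)) * (ph f g x * (starRingEnd ℂ) (ph f g (x + h))) := by
    rw [sum_filter, ← sum_add_distrib]
    apply sum_congr rfl
    intro x _
    by_cases hx : Q.eval x = 0
    · rw [if_pos hx, if_pos hx, zero_add]
    · rw [if_neg hx, if_neg hx, add_zero, hterm x hx]
  rw [hsplit]
  refine (norm_add_le _ _).trans (add_le_add ?_ ?_)
  · refine hW.trans (le_of_eq ?_)
    push_cast
    ring
  · refine (norm_sum_le _ _).trans ?_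
    have h1 : ∀ x ∈ Finset.univ.filter (fun x : ZMod p => Q.eval x = 0),
        ‖ZMod.stdAddChar (-(x * w)) * (ph f g x * (starRingEnd ℂ) (ph f g (x + h)))‖ ≤ 1 := by
      intro x _
      rw [norm_mul, norm_mul, AddChar.norm_apply, RCLike.norm_conj, ph_norm, ph_norm]
      norm_num
    refine (sum_le_sum h1).trans ?_
    rw [sum_const, nsmul_eq_mul, mul_one]
    have h2 : (Finset.univ.filter (fun x : ZMod p => Q.eval x = 0)).card ≤ Q.natDegree := by
      refine le_trans ?_ (card_roots' Q)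
      refine le_trans ?_ (Multiset.toFinset_card_le Q.roots)
      apply card_le_card
      intro x hx
      rw [mem_filter] at hx
      rw [Multiset.mem_toFinset, mem_roots hQ0]
      exact hx.2
    exact_mod_cast h2.trans hQd

/-- the incomplete sums of the correlations over progressions -/
theorem corr_incomplete (hp3 : 2 < p) {f g : (ZMod p)[X]} (hg : g ≠ 0) {D : ℕ}
    (hfd : f.natDegree ≤ D) (hgd : g.natDegree ≤ D) (hD : 2 * D + 1 < p) (hq : NotQuad f g) {k : ℕ} (hk : Nat.Coprime p k)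
    {h : ℕ} (hh : ¬ p ∣ h) (m0 J : ℕ) :
    ‖∑ j ∈ range J, ph f g ((m0 + k * j : ℕ) : ZMod p) * (starRingEnd ℂ) (ph f g ((m0 + k * j + h : ℕ) : ZMod p))‖ ≤
      ((2 * (2 * D + 1) : ℝ) * Real.sqrt p + 2 * D) * ((J : ℝ) / p + 1 + Real.log p) := by
  have hh' : (h : ZMod p) ≠ 0 := by
    intro h0
    exact hh ((ZMod.natCast_eq_zero_iff h p).1 h0)
  have hcomp := Pool.Agent.H442R2.KF.Inc.completion p k hk
    (fun x => ph f g x * (starRingEnd ℂ) (ph f g (x + (h : ZMod p)))) _ (by positivity)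
    (fun w => corr_complete hp3 hg hfd hgd hD hq hh' w) (m0 : ℤ) J
  refine le_trans (le_of_eq ?_) hcomp
  congr 1
  apply sum_congr rfl
  intro j _
  push_cast
  rfl

end Run7.h914.MC
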