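import Pool.Agent.Run7.h914.MC.Inv

/-! Cycles and eventually periodic orbits of `x / 2`, `(3 x + d) / 2` and the sets of a datum. -/

set_option autoImplicit false
set_option linter.all false

namespace Run7.h914.MC

open Finset Polynomial Filter Topology Pool.Agent.Y965.PS Pool.Agent.Y965.PL Pool.Agent.H499R2.ND

/-- some sparse sets of data contain few `n` with `P n` -/
def Few (r : ℕ) (δ : ℝ) (P : ℕ → Prop) : Prop :=
  ∀ ε : ℝ, 0 < ε → ∀ N₀ : ℕ, ∃ N : ℕ, N₀ ≤ N ∧ ∃ D : Datum δ N r, (N : ℝ) ^ (-(δ / 8000)) ≤ D.vol ∧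
    cnt (fun n => D.Mem n ∧ P n) N ≤ ε * D.vol * N

theorem cnt_mono {P Q : ℕ → Prop} {X : ℕ} (h : ∀ n, 1 ≤ n → n ≤ X → P n → Q n) : cnt P X ≤ cnt Q X := by
  unfold cnt
  have hfin : {n : ℕ | 1 ≤ n ∧ n ≤ X ∧ Q n}.Finite := (Set.finite_Iic X).subset fun n hn => hn.2.1
  have hsub : {n : ℕ | 1 ≤ n ∧ n ≤ X ∧ P n} ⊆ {n : ℕ | 1 ≤ n ∧ n ≤ X ∧ Q n} := fun n hn =>
    ⟨hn.1, hn.2.1, h n hn.1 hn.2.1 hn.2.2⟩
  exact_mod_cast Set.ncard_le_ncard hsub hfin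

theorem cnt_none {P : ℕ → Prop} {X : ℕ} (h : ∀ n, 1 ≤ n → n ≤ X → ¬ P n) : cnt P X = 0 := by
  unfold cnt
  have e : {n : ℕ | 1 ≤ n ∧ n ≤ X ∧ P n} = ∅ := by
    rw [Set.eq_empty_iff_forall_notMem]
    rintro n ⟨h1, h2, hn⟩
    exact h n h1 h2 hn
  rw [e]
  simp

theorem cnt_nonneg (P : ℕ → Prop) (X : ℕ) : 0 ≤ cnt P X := by
  unfold cnt
  positivity

theorem cnt_congr {P Q : ℕ → Prop} {X : ℕ} (h : ∀ n, 1 ≤ n → n ≤ X → (P n ↔ Q n)) : cnt P X = cnt Q X :=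
  le_antisymm (cnt_mono fun n h1 h2 h3 => (h n h1 h2).1 h3) (cnt_mono fun n h1 h2 h3 => (h n h1 h2).2 h3)

theorem Few.mono {r : ℕ} {δ : ℝ} {P Q : ℕ → Prop} (h : Few r δ Q) (hPQ : ∀ n, 1 ≤ n → P n → Q n) : Few r δ P := by
  intro ε hε N₀
  obtain ⟨N, hN, D, hD, hc⟩ := h ε hε N₀
  refine ⟨N, hN, D, hD, le_trans (cnt_mono fun n h1 _ h3 => ⟨h3.1, hPQ n h1 h3.2⟩) hc⟩

/-- the datum of all integers -/
noncomputable def Datum.all {N p : ℕ} (hp : p.Prime) (h2 : 2 < p) (h3 : (N : ℝ) ^ (1 / 2 : ℝ) ≤ p)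
    (h4 : (p : ℝ) ≤ (N : ℝ) ^ (2 - 1 / 2 : ℝ)) : Datum (1 / 2) N 0 where
  p := p
  f := fun i => i.elim0
  g := 1
  α := fun i => i.elim0
  l := fun i => i.elim0
  prime := hp
  odd := h2
  lower := h3
  upper := h4
  deg_f := fun i => i.elim0
  deg_g := by
    rw [natDegree_one, Nat.cast_zero]
    positivity
  g_ne := by
    haveI := Fact.mk hp
    exact one_ne_zero
  free := fun a ha => absurd (Subsingleton.elim a 0) ha
  len := fun i => i.elim0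

theorem all_vol {N p : ℕ} (hp : p.Prime) (h2 : 2 < p) (h3 : (N : ℝ) ^ (1 / 2 : ℝ) ≤ p)
    (h4 : (p : ℝ) ≤ (N : ℝ) ^ (2 - 1 / 2 : ℝ)) : (Datum.all hp h2 h3 h4).vol = 1 := by
  unfold Datum.vol
  rw [Fin.prod_univ_zero]

theorem exists_all (N : ℕ) (hN : 16 ≤ N) : ∃ D : Datum (1 / 2) N 0, D.vol = 1 := by
  obtain ⟨p, hp, hlt, hle⟩ := Nat.exists_prime_lt_and_le_two_mul N (by omega)
  have hN1 : (16 : ℝ) ≤ N := by exact_mod_cast hN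
  have hN0 : (0 : ℝ) < N := by linarith
  have e1 : (N : ℝ) ^ (1 / 2 : ℝ) ≤ p := by
    calc (N : ℝ) ^ (1 / 2 : ℝ) ≤ (N : ℝ) ^ (1 : ℝ) := Real.rpow_le_rpow_of_exponent_le (by linarith) (by norm_num)
      _ = N := Real.rpow_one _
      _ ≤ p := by exact_mod_cast hlt.le
  have e2 : (p : ℝ) ≤ (N : ℝ) ^ (2 - 1 / 2 : ℝ) := by
    have h5 : (2 : ℝ) ≤ (N : ℝ) ^ (1 / 2 : ℝ) := by
      rw [← Real.sqrt_eq_rpow]
      have : Real.sqrt 16 ≤ Real.sqrt N := Real.sqrt_le_sqrt hN1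
      have h16 : Real.sqrt 16 = 4 := by
        rw [show (16 : ℝ) = 4 ^ 2 by norm_num]
        exact Real.sqrt_sq (by norm_num)
      linarith
    have h6 : (N : ℝ) ^ (2 - 1 / 2 : ℝ) = N * (N : ℝ) ^ (1 / 2 : ℝ) := by
      rw [show (2 - 1 / 2 : ℝ) = 1 + 1 / 2 by norm_num, Real.rpow_add hN0, Real.rpow_one]
    rw [h6]
    calc (p : ℝ) ≤ 2 * N := by exact_mod_cast hle
      _ = N * 2 := by ring
      _ ≤ _ := mul_le_mul_of_nonneg_left h5 hN0.le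
  exact ⟨Datum.all hp (by omega) e1 e2, all_vol hp (by omega) e1 e2⟩

theorem few_none {P : ℕ → Prop} (h : ∀ n, 1 ≤ n → ¬ P n) : Few 0 (1 / 2) P := by
  intro ε hε N₀
  obtain ⟨D, hD⟩ := exists_all (max N₀ 16) (le_max_right _ _)
  refine ⟨max N₀ 16, le_max_left _ _, D, ?_, ?_⟩
  · rw [hD]
    have h1 : (1 : ℝ) ≤ (max N₀ 16 : ℕ) := by
      have : 1 ≤ max N₀ 16 := le_trans (by norm_num) (le_max_right _ _)
      exact_mod_cast this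
    exact Real.rpow_le_one_of_one_le_of_nonpos h1 (by norm_num)
  · rw [cnt_none fun n h1 _ h3 => h n h1 h3.2, hD]
    positivity

variable {d : ℤ}

/-- an invariant set without `0` which has few members in some sparse sets, for both signs, is empty -/
theorem empty_of (hd : d % 2 = 1) (hd3 : ¬ (3 : ℤ) ∣ d) {S : Set ℤ} (hS : ∀ x, x ∈ S ↔ Td d x ∈ S) (h0 : (0 : ℤ) ∉ S)
    (h : ∀ s : ℤ, s = 1 ∨ s = -1 → ∃ (r : ℕ) (δ : ℝ), 0 < δ ∧ δ ≤ 1 ∧ Few r δ (fun n => s * (n : ℤ) ∈ S)) : S = ∅ := by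
  rw [Set.eq_empty_iff_forall_notMem]
  intro x hx
  have hx0 : x ≠ 0 := by rintro rfl; exact h0 hx
  obtain ⟨j, hj⟩ := exists_prime3' (Int.odd_iff.2 hd) hd3 _ x hx0 le_rfl
  set b := (Td d)^[j] x with hb
  have hbS : b ∈ S := (inv_it hS j x).1 hx
  have hb0 : b ≠ 0 := by
    intro h1
    apply hj
    rw [h1]; exact dvd_zero _
  obtain ⟨s, hs, hsb⟩ : ∃ s : ℤ, (s = 1 ∨ s = -1) ∧ 0 < s * b := by
    rcases lt_or_gt_of_ne hb0 with g | g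
    · exact ⟨-1, Or.inr rfl, by omega⟩
    · exact ⟨1, Or.inl rfl, by omega⟩
  obtain ⟨l, hl0, _, hl, hpos⟩ := dens_inv hd (cop_of_not_dvd hd3) hs hS
  obtain ⟨r, δ, hδ, hδ1, hf⟩ := h s hs
  have h1 := zero_of (r := r) hδ hl0
    (fun ε hε => inv_rel r δ hδ hδ1 hd (cop_of_not_dvd hd3) hs hS hl ε hε) hf
  have h2 := hpos b hbS hsb hj
  rw [h1] at h2
  exact lt_irrefl _ h2

/-- densities of disjoint sets -/
theorem dens_sum {ι : Type*} (F : Finset ι) (P : ι → ℕ → Prop) (hdis : ∀ i ∈ F, ∀ j ∈ F, i ≠ j → ∀ n, P i n → ¬ P j n)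
    (l : ι → ℝ) (hl : ∀ i ∈ F, Dens (P i) (l i)) : ∑ i ∈ F, l i ≤ 1 := by
  classical
  have h1 : Tendsto (fun N : ℕ => ∑ i ∈ F, cnt (P i) N / N) atTop (𝓝 (∑ i ∈ F, l i)) :=
    tendsto_finsetSum F fun i hi => hl i hi
  refine le_of_tendsto h1 (Eventually.of_forall fun N => ?_)
  rw [← sum_div]
  refine div_le_one_of_le₀ ?_ (Nat.cast_nonneg _)
  have h2 : ∑ i ∈ F, cnt (P i) N = (((F.biUnion fun i => (Icc 1 N).filter (P i))).card : ℝ) := by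
    rw [card_biUnion]
    · push_cast
      apply sum_congr rfl
      intro i _
      rw [cnt_eq]
    · intro i hi j hj hij
      show Disjoint ((Icc 1 N).filter (P i)) ((Icc 1 N).filter (P j))
      rw [Finset.disjoint_left]
      intro n hn hn'
      rw [mem_filter] at hn hn'
      exact hdis i hi j hj hij n hn.2 hn'.2
  rw [h2]
  have h3 : (F.biUnion fun i => (Icc 1 N).filter (P i)) ⊆ Icc 1 N := by
    intro n hn
    obtain ⟨i, _, hn⟩ := mem_biUnion.1 hn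
    exact (mem_filter.1 hn).1
  have h4 := card_le_card h3
  rw [Nat.card_Icc, Nat.add_sub_cancel] at h4
  exact_mod_cast h4

/-- `Z` is a cycle of `f` -/
def IsCyc (f : ℤ → ℤ) (Z : Finset ℤ) : Prop :=
  ∃ (x : ℤ) (p : ℕ), 1 ≤ p ∧ f^[p] x = x ∧ Z = (Finset.range p).image fun i => f^[i] x

/-- the orbit of `x` reaches `Z` -/
def Fall (f : ℤ → ℤ) (x : ℤ) (Z : Finset ℤ) : Prop := ∃ j : ℕ, f^[j] x ∈ Z

theorem per_mul {f : ℤ → ℤ} {x : ℤ} {p : ℕ} (hx : f^[p] x = x) (t : ℕ) : f^[p * t] x = x := by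
  induction t with
  | zero => rfl
  | succ t ih => rw [Nat.mul_succ, Function.iterate_add_apply, hx, ih]

theorem cyc_iff {f : ℤ → ℤ} {Z : Finset ℤ} (hZ : IsCyc f Z) {y : ℤ} (hy : y ∈ Z) (z : ℤ) : z ∈ Z ↔ ∃ j : ℕ, f^[j] y = z := by
  obtain ⟨x, p, hp, hx, rfl⟩ := hZ
  rw [mem_image] at hy
  obtain ⟨i, hi, rfl⟩ := hy
  rw [mem_range] at hi
  constructor
  · intro hz
    rw [mem_image] at hz
    obtain ⟨k, hk, rfl⟩ := hz
    refine ⟨k + (p - i), ?_⟩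
    rw [← Function.iterate_add_apply, show k + (p - i) + i = k + p by omega, Function.iterate_add_apply, hx]
  · rintro ⟨j, rfl⟩
    rw [← Function.iterate_add_apply, mem_image]
    refine ⟨(j + i) % p, mem_range.2 (Nat.mod_lt _ (by omega)), ?_⟩
    conv_rhs => rw [← Nat.mod_add_div (j + i) p, Function.iterate_add_apply, per_mul hx]

theorem cyc_closed {f : ℤ → ℤ} {Z : Finset ℤ} (hZ : IsCyc f Z) {y : ℤ} (hy : y ∈ Z) (j : ℕ) : f^[j] y ∈ Z :=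
  (cyc_iff hZ hy _).2 ⟨j, rfl⟩

theorem cyc_per {f : ℤ → ℤ} {Z : Finset ℤ} (hZ : IsCyc f Z) {y : ℤ} (hy : y ∈ Z) : ∃ p : ℕ, 1 ≤ p ∧ f^[p] y = y := by
  obtain ⟨j, hj⟩ := (cyc_iff hZ (cyc_closed hZ hy 1) y).1 hy
  exact ⟨j + 1, by omega, by rw [Function.iterate_add_apply]; exact hj⟩

theorem fall_inv {f : ℤ → ℤ} {Z : Finset ℤ} (hZ : IsCyc f Z) (x : ℤ) : Fall f x Z ↔ Fall f (f x) Z := by
  constructor
  · rintro ⟨j, hj⟩
    refine ⟨j, ?_⟩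
    rw [← Function.iterate_succ_apply, Function.iterate_succ_apply']
    exact cyc_closed hZ hj 1
  · rintro ⟨j, hj⟩
    exact ⟨j + 1, by rw [Function.iterate_succ_apply]; exact hj⟩

theorem cyc_eq {f : ℤ → ℤ} {Z Z' : Finset ℤ} (hZ : IsCyc f Z) (hZ' : IsCyc f Z') {y : ℤ} (hy : y ∈ Z) (hy' : y ∈ Z') : Z = Z' := by
  ext z
  rw [cyc_iff hZ hy, cyc_iff hZ' hy']

theorem fall_unique {f : ℤ → ℤ} {Z Z' : Finset ℤ} (hZ : IsCyc f Z) (hZ' : IsCyc f Z') {x : ℤ} (h : Fall f x Z)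
    (h' : Fall f x Z') : Z = Z' := by
  obtain ⟨i, hi⟩ := h
  obtain ⟨j, hj⟩ := h'
  rcases le_total i j with g | g
  · have := cyc_closed hZ hi (j - i)
    rw [← Function.iterate_add_apply, Nat.sub_add_cancel g] at this
    exact cyc_eq hZ hZ' this hj
  · have := cyc_closed hZ' hj (i - j)
    rw [← Function.iterate_add_apply, Nat.sub_add_cancel g] at this
    exact cyc_eq hZ hZ' hi this

/-- some sparse sets of data contain many `n` with `P n` -/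
def Many (r : ℕ) (δ θ : ℝ) (P : ℕ → Prop) : Prop :=
  ∀ N₀ : ℕ, ∃ N : ℕ, N₀ ≤ N ∧ ∃ D : Datum δ N r, (N : ℝ) ^ (-(δ / 8000)) ≤ D.vol ∧
    θ * D.vol * N ≤ cnt (fun n => D.Mem n ∧ P n) N

theorem ge_of {r : ℕ} {δ l θ : ℝ} {P : ℕ → Prop}
    (h : ∀ ε : ℝ, 0 < ε → ∃ N₀ : ℕ, ∀ N : ℕ, N₀ ≤ N → ∀ D : Datum δ N r, (N : ℝ) ^ (-(δ / 8000)) ≤ D.vol →
      |cnt (fun n => D.Mem n ∧ P n) N - l * D.vol * N| ≤ ε * D.vol * N)
    (hm : Many r δ θ P) : θ ≤ l := by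
  refine le_of_forall_pos_le_add fun ε hε => ?_
  obtain ⟨N₀, hN₀⟩ := h ε hε
  obtain ⟨N, hN, D, hD, hc⟩ := hm (max N₀ 1)
  have hN1 : (0 : ℝ) < N := by
    have : 1 ≤ N := (le_max_right _ _).trans hN
    exact_mod_cast this
  have h1 := hN₀ N ((le_max_left _ _).trans hN) D hD
  have hv : 0 < D.vol := lt_of_lt_of_le (Real.rpow_pos_of_pos hN1 _) hD
  have h2 := (abs_le.1 h1).2
  have h3 : θ * (D.vol * N) ≤ (l + ε) * (D.vol * N) := by linarith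
  exact le_of_mul_le_mul_right h3 (by positivity)

/-- a set of cycles on one side, each of which receives a proportion `θ` of some sparse sets, has at most `1 / θ` elements -/
theorem cyc_count (hd : d % 2 = 1) (hd3 : ¬ (3 : ℤ) ∣ d) {s : ℤ} (hs : s = 1 ∨ s = -1) {θ : ℝ} (hθ : 0 < θ)
    (𝒰 : Set (Finset ℤ)) (hU : ∀ Z ∈ 𝒰, IsCyc (Td d) Z)
    (h : ∀ Z ∈ 𝒰, ∃ (r : ℕ) (δ : ℝ), 0 < δ ∧ δ ≤ 1 ∧ Many r δ θ (fun n => Fall (Td d) (s * n) Z)) :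
    𝒰.Finite ∧ (𝒰.ncard : ℝ) ≤ 1 / θ := by
  classical
  have hl : ∀ Z ∈ 𝒰, ∃ l : ℝ, Dens (fun n => Fall (Td d) (s * n) Z) l ∧ θ ≤ l := by
    intro Z hZ
    have hS : ∀ x, x ∈ {x | Fall (Td d) x Z} ↔ Td d x ∈ {x | Fall (Td d) x Z} := fun x => fall_inv (hU Z hZ) x
    obtain ⟨l, _, _, hl, _⟩ := dens_inv hd (cop_of_not_dvd hd3) hs hS
    obtain ⟨r, δ, hδ, hδ1, hm⟩ := h Z hZ
    exact ⟨l, hl, ge_of (fun ε hε => inv_rel r δ hδ hδ1 hd (cop_of_not_dvd hd3) hs hS hl ε hε) hm⟩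
  have key : ∀ F : Finset (Finset ℤ), (F : Set (Finset ℤ)) ⊆ 𝒰 → (F.card : ℝ) * θ ≤ 1 := by
    intro F hF
    choose! l hl1 hl2 using hl
    have h1 := dens_sum F (fun Z n => Fall (Td d) (s * (n : ℤ)) Z)
      (fun Z hZ Z' hZ' hne n h1 h2 => hne (fall_unique (hU Z (hF hZ)) (hU Z' (hF hZ')) h1 h2)) l
      (fun Z hZ => hl1 Z (hF hZ))
    have h2 : ∑ Z ∈ F, θ ≤ ∑ Z ∈ F, l Z := sum_le_sum fun Z hZ => hl2 Z (hF hZ)
    rw [sum_const, nsmul_eq_mul] at h2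
    linarith
  have hfin : 𝒰.Finite := by
    by_contra hinf
    obtain ⟨F, hF, hc⟩ := Set.Infinite.exists_subset_card_eq hinf (⌈1 / θ⌉₊ + 1)
    have h1 := key F hF
    rw [hc] at h1
    have h2 := Nat.le_ceil (1 / θ)
    push_cast at h1
    rw [div_le_iff₀ hθ] at h2
    linarith
  refine ⟨hfin, ?_⟩
  have h1 := key hfin.toFinset (by rw [Set.Finite.coe_toFinset])
  rw [le_div_iff₀ hθ, Set.ncard_eq_toFinset_card 𝒰 hfin]
  exact h1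

/-- finiteness of the set of cycles from few exceptions in sparse sets -/
theorem cyc_finite (hd : d % 2 = 1) (hd3 : ¬ (3 : ℤ) ∣ d) (𝒰 : Set (Finset ℤ))
    (h : ∀ s : ℤ, s = 1 ∨ s = -1 → ∃ (r : ℕ) (δ : ℝ), 0 < δ ∧ δ ≤ 1 ∧
      Few r δ (fun n => ∃ Z : Finset ℤ, IsCyc (Td d) Z ∧ Z ∉ 𝒰 ∧ Fall (Td d) (s * n) Z)) :
    ∀ Z : Finset ℤ, IsCyc (Td d) Z → Z ∈ 𝒰 ∨ Z = {0} := by
  have h0it : ∀ i : ℕ, (Td d)^[i] 0 = 0 := by
    intro i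
    induction i with
    | zero => rfl
    | succ i ih => rw [Function.iterate_succ_apply, show Td d 0 = 0 from rfl, ih]
  have hS : ∀ x, x ∈ {x | ∃ Z : Finset ℤ, IsCyc (Td d) Z ∧ Z ∉ 𝒰 ∧ (0 : ℤ) ∉ Z ∧ Fall (Td d) x Z} ↔
      Td d x ∈ {x | ∃ Z : Finset ℤ, IsCyc (Td d) Z ∧ Z ∉ 𝒰 ∧ (0 : ℤ) ∉ Z ∧ Fall (Td d) x Z} := by
    intro x
    refine exists_congr fun Z => and_congr_right fun hZ => ?_
    rw [fall_inv hZ x]
  have h1 := empty_of hd hd3 hS (by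
    rintro ⟨Z, _, _, h3, j, hj⟩
    rw [h0it] at hj
    exact h3 hj) (fun s hs => by
    obtain ⟨r, δ, hδ, hδ1, hf⟩ := h s hs
    exact ⟨r, δ, hδ, hδ1, hf.mono fun n _ ⟨Z, h1, h2, _, h3⟩ => ⟨Z, h1, h2, h3⟩⟩)
  intro Z hZ
  by_contra hcon
  push Not at hcon
  obtain ⟨h2, h3⟩ := hcon
  by_cases h0 : (0 : ℤ) ∈ Z
  · apply h3
    ext z
    rw [cyc_iff hZ h0, mem_singleton]
    constructor
    · rintro ⟨j, rfl⟩; exact h0it j
    · rintro rfl; exact ⟨0, rfl⟩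
  · obtain ⟨x, p, hp, hx, hZ2⟩ := id hZ
    have hx2 : x ∈ Z := by
      rw [hZ2, mem_image]
      exact ⟨0, mem_range.2 (by omega), rfl⟩
    have h4 : x ∈ {x | ∃ Z : Finset ℤ, IsCyc (Td d) Z ∧ Z ∉ 𝒰 ∧ (0 : ℤ) ∉ Z ∧ Fall (Td d) x Z} :=
      ⟨Z, hZ, h2, h0, 0, hx2⟩
    rw [h1] at h4
    exact h4

end Run7.h914.MC
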