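import Pool.Agent.Run7.h914.MC.Tf

/-! Sets of integers defined by the positions of rational functions modulo a prime, and the transfer
theorem for them. -/

set_option autoImplicit false
set_option linter.all false

namespace Run7.h914.MC

open Finset Polynomial Pool.Agent.Y965.PS Pool.Agent.Y965.PL

/-- A prime `p > 2` with `N ^ δ ≤ p ≤ N ^ (2 - δ)`, rational functions `f i / g`, `i < r`, modulo `p` with
degrees at most `N ^ (δ / 200)` such that no nontrivial linear combination of them is a polynomial of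
degree at most two, and intervals `α i, α i + 1, …, α i + (l i - 1)` of at most `p` residues modulo `p`.
Example: `r = 1`, `f / g = 1 / X`. -/
structure Datum (δ : ℝ) (N r : ℕ) where
  /-- the prime -/
  p : ℕ
  /-- the numerators -/
  f : Fin r → (ZMod p)[X]
  /-- the denominator -/
  g : (ZMod p)[X]
  /-- the first elements of the intervals -/
  α : Fin r → ZMod p
  /-- the lengths of the intervals -/
  l : Fin r → ℕ
  prime : p.Prime
  odd : 2 < p
  lower : (N : ℝ) ^ δ ≤ p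
  upper : (p : ℝ) ≤ (N : ℝ) ^ (2 - δ)
  deg_f : ∀ i, ((f i).natDegree : ℝ) ≤ (N : ℝ) ^ (δ / 200)
  deg_g : (g.natDegree : ℝ) ≤ (N : ℝ) ^ (δ / 200)
  g_ne : g ≠ 0
  free : ∀ a : Fin r → ZMod p, a ≠ 0 → ∀ q : (ZMod p)[X], q.natDegree ≤ 2 → ∑ i, C (a i) * f i ≠ q * g
  len : ∀ i, l i ≤ p

variable {δ : ℝ} {N r : ℕ}

/-- `n` belongs to the set: `g(n)` is not divisible by `p`, and the residue `f i (n) / g (n)` lies in the
`i`-th interval, for all `i` -/
def Datum.Mem (D : Datum δ N r) (n : ℕ) : Prop :=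
  D.g.eval (n : ZMod D.p) ≠ 0 ∧ ∀ i, ∃ j : ℕ, j < D.l i ∧
    (D.f i).eval (n : ZMod D.p) = (D.α i + (j : ZMod D.p)) * D.g.eval (n : ZMod D.p)

/-- the proportion of the box, the product of the `l i / p` -/
noncomputable def Datum.vol (D : Datum δ N r) : ℝ := ∏ i, (D.l i : ℝ) / D.p

theorem Datum.mem_iff (D : Datum δ N r) (n : ℕ) :
    haveI := Fact.mk D.prime
    D.Mem n ↔ InB D.f D.g D.α D.l n := by
  haveI := Fact.mk D.prime
  unfold Datum.Mem InB
  constructor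
  · rintro ⟨h1, h2⟩
    refine ⟨h1, fun i => ?_⟩
    obtain ⟨j, hj, h3⟩ := h2 i
    rw [h3, mul_div_assoc, div_self h1, mul_one, add_sub_cancel_left,
      ZMod.val_natCast_of_lt (lt_of_lt_of_le hj (D.len i))]
    exact hj
  · rintro ⟨h1, h2⟩
    refine ⟨h1, fun i => ⟨_, h2 i, ?_⟩⟩
    rw [ZMod.natCast_zmod_val, add_sub_cancel, div_mul_cancel₀ _ h1]

theorem Datum.vol_eq (D : Datum δ N r) : D.vol = MC.vol D.p D.l := rfl

theorem Datum.vol_nonneg (D : Datum δ N r) : 0 ≤ D.vol := MC.vol_nonneg _ _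

theorem Datum.vol_le_one (D : Datum δ N r) : D.vol ≤ 1 := MC.vol_le_one D.prime.pos D.len

/-- the interval `α, α + 1, …, α + (l - 1)` for the inverses modulo `p` -/
noncomputable def Datum.inv {p : ℕ} (hp : p.Prime) (h2 : 2 < p) (hN : 1 ≤ N) (hδ : 0 < δ) (h3 : (N : ℝ) ^ δ ≤ p)
    (h4 : (p : ℝ) ≤ (N : ℝ) ^ (2 - δ)) (α : ZMod p) (l : ℕ) (hl : l ≤ p) : Datum δ N 1 where
  p := p
  f := fun _ => 1
  g := X
  α := fun _ => α
  l := fun _ => l
  prime := hp
  odd := h2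
  lower := h3
  upper := h4
  deg_f := fun i => by
    rw [natDegree_one, Nat.cast_zero]
    positivity
  deg_g := by
    haveI := Fact.mk hp
    rw [natDegree_X, Nat.cast_one]
    exact Real.one_le_rpow (by exact_mod_cast hN) (by positivity)
  g_ne := by
    haveI := Fact.mk hp
    exact X_ne_zero
  free := by
    haveI := Fact.mk hp
    intro a ha q _ h
    apply ha
    funext i
    rw [Fin.sum_univ_one, mul_one] at h
    have h1 := congrArg (eval 0) h
    rw [eval_C, eval_mul, eval_X, mul_zero] at h1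
    have h2 : i = 0 := Subsingleton.elim _ _
    rw [h2, h1]; rfl
  len := fun _ => hl

open Classical in
/-- THE TRANSFER THEOREM, for all initial segments -/
theorem master (r : ℕ) (δ : ℝ) (hδ : 0 < δ) (hδ1 : δ ≤ 1) : ∃ K : ℝ, 1 ≤ K ∧ ∀ N : ℕ, 1 ≤ N → ∀ D : Datum δ N r,
    ∀ d : ℤ, d % 2 = 1 → |(d : ℝ)| ≤ (N : ℝ) ^ (δ / 200) → ∀ F : ℕ → ℂ, Syn d N F → ∀ X : ℕ, X ≤ N →
      ‖∑ m ∈ (Icc 1 X).filter D.Mem, F m - (D.vol : ℂ) * ∑ m ∈ Icc 1 X, F m‖ ≤ K * (N : ℝ) ^ (1 - δ / 4000) := by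
  obtain ⟨K, hK, h⟩ := transfer r (δ / 2) (by positivity) (by linarith)
  refine ⟨K + 2, by linarith, ?_⟩
  intro N hN D d hd hdN F hF X hX
  have hN1 : (1 : ℝ) ≤ N := by exact_mod_cast hN
  have hN0 : (0 : ℝ) < N := by linarith
  haveI := Fact.mk D.prime
  have hE : (0 : ℝ) < (N : ℝ) ^ (1 - δ / 4000) := Real.rpow_pos_of_pos hN0 _
  rcases le_or_gt (X : ℝ) ((N : ℝ) ^ (1 - δ / 8)) with hXs | hXl
  · have h1 : ∀ S : Finset ℕ, S ⊆ Icc 1 X → ‖∑ m ∈ S, F m‖ ≤ X := by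
      intro S hS
      refine (norm_sum_le _ _).trans ((sum_le_sum fun m _ => hF.1 m).trans ?_)
      rw [sum_const, nsmul_eq_mul, mul_one]
      have := card_le_card hS
      rw [Nat.card_Icc, Nat.add_sub_cancel] at this
      exact_mod_cast this
    have h2 := h1 _ (filter_subset D.Mem (Icc 1 X))
    have h3 := h1 _ (Subset.refl (Icc 1 X))
    have h4 : ‖(D.vol : ℂ) * ∑ m ∈ Icc 1 X, F m‖ ≤ X := by
      rw [norm_mul, Complex.norm_real, Real.norm_eq_abs, abs_of_nonneg D.vol_nonneg]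
      have h5 := D.vol_le_one
      calc D.vol * ‖∑ m ∈ Icc 1 X, F m‖ ≤ 1 * X := mul_le_mul h5 h3 (norm_nonneg _) zero_le_one
        _ = X := one_mul _
    have h5 : (N : ℝ) ^ (1 - δ / 8) ≤ (N : ℝ) ^ (1 - δ / 4000) :=
      Real.rpow_le_rpow_of_exponent_le hN1 (by linarith)
    have h6 := norm_sub_le (∑ m ∈ (Icc 1 X).filter D.Mem, F m) ((D.vol : ℂ) * ∑ m ∈ Icc 1 X, F m)
    have h7 : 0 ≤ K * (N : ℝ) ^ (1 - δ / 4000) := by positivity
    have h8 : (K + 2) * (N : ℝ) ^ (1 - δ / 4000) = K * (N : ℝ) ^ (1 - δ / 4000) + 2 * (N : ℝ) ^ (1 - δ / 4000) := by ring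
    rw [h8]
    linarith
  · have hX1 : 1 ≤ X := by
      have : (0 : ℝ) < X := lt_of_le_of_lt (by positivity) hXl
      exact_mod_cast this
    have hX1R : (1 : ℝ) ≤ X := by exact_mod_cast hX1
    have hXN : (X : ℝ) ≤ N := by exact_mod_cast hX
    have key : ∀ a b : ℝ, 0 ≤ b → a ≤ (1 - δ / 8) * b → (N : ℝ) ^ a ≤ (X : ℝ) ^ b := by
      intro a b hb hab
      calc (N : ℝ) ^ a ≤ (N : ℝ) ^ ((1 - δ / 8) * b) := Real.rpow_le_rpow_of_exponent_le hN1 hab
        _ = ((N : ℝ) ^ (1 - δ / 8)) ^ b := by rw [Real.rpow_mul hN0.le]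
        _ ≤ _ := Real.rpow_le_rpow (by positivity) hXl.le hb
    have c1 : (X : ℝ) ^ (δ / 2) ≤ D.p := by
      refine le_trans ?_ D.lower
      calc (X : ℝ) ^ (δ / 2) ≤ (N : ℝ) ^ (δ / 2) := Real.rpow_le_rpow (by positivity) hXN (by positivity)
        _ ≤ _ := Real.rpow_le_rpow_of_exponent_le hN1 (by linarith)
    have c2 : (D.p : ℝ) ≤ (X : ℝ) ^ (2 - δ / 2) := D.upper.trans (key _ _ (by linarith) (by nlinarith))
    have c3 : (N : ℝ) ^ (δ / 200) ≤ (X : ℝ) ^ (δ / 2 / 80) := key _ _ (by positivity) (by nlinarith)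
    have hmain := h X hX1 D.p c1 c2 D.f D.g (fun i => (D.deg_f i).trans c3) (D.deg_g.trans c3)
      ⟨D.g_ne, D.free⟩ d hd (hdN.trans c3) F (hF.mono hX) D.α D.l D.len
    have e1 : (Icc 1 X).filter (InB D.f D.g D.α D.l) = (Icc 1 X).filter D.Mem := by
      apply filter_congr
      intro m _
      exact (D.mem_iff m).symm
    rw [e1] at hmain
    refine hmain.trans ?_
    have e2 : (1 : ℝ) - δ / 2 / 2000 = 1 - δ / 4000 := by ring
    rw [e2]
    have h1 : (X : ℝ) ^ (1 - δ / 4000) ≤ (N : ℝ) ^ (1 - δ / 4000) :=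
      Real.rpow_le_rpow (by positivity) hXN (by linarith)
    calc K * (X : ℝ) ^ (1 - δ / 4000) ≤ K * (N : ℝ) ^ (1 - δ / 4000) := mul_le_mul_of_nonneg_left h1 (by linarith)
      _ ≤ _ := mul_le_mul_of_nonneg_right (by linarith) hE.le

/-- a property of positive integers which depends only on the point of the trajectory at the time `j` and
on the number of odd terms before it, for integers larger than `2 ^ j` -/
def SynP (d : ℤ) (N : ℕ) (P : ℕ → Prop) : Prop :=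
  ∀ (j x y : ℕ), x ≤ N → y ≤ N → 2 ^ j < x → 2 ^ j < y →
    (Tz d)^[j] (x : ℤ) = (Tz d)^[j] (y : ℤ) → ac d j x = ac d j y → (P x ↔ P y)

/-- the number of the `n` with `1 ≤ n ≤ X` and the property `P` -/
noncomputable def cnt (P : ℕ → Prop) (X : ℕ) : ℝ := ({n : ℕ | 1 ≤ n ∧ n ≤ X ∧ P n}.ncard : ℝ)

open Classical in
theorem cnt_eq (P : ℕ → Prop) (X : ℕ) : cnt P X = (((Icc 1 X).filter P).card : ℝ) := by
  unfold cnt
  have e : {n : ℕ | 1 ≤ n ∧ n ≤ X ∧ P n} = (((Icc 1 X).filter P : Finset ℕ) : Set ℕ) := by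
    ext n
    simp only [Set.mem_ofPred_eq, coe_filter, mem_Icc, and_assoc]
  rw [e, Set.ncard_coe_finset]

/-- THE TRANSFER THEOREM FOR SETS -/
theorem sets (r : ℕ) (δ : ℝ) (hδ : 0 < δ) (hδ1 : δ ≤ 1) : ∃ K : ℝ, 1 ≤ K ∧ ∀ N : ℕ, 1 ≤ N → ∀ D : Datum δ N r,
    ∀ d : ℤ, d % 2 = 1 → |(d : ℝ)| ≤ (N : ℝ) ^ (δ / 200) → ∀ P : ℕ → Prop, SynP d N P → ∀ X : ℕ, X ≤ N →
      |cnt (fun n => D.Mem n ∧ P n) X - D.vol * cnt P X| ≤ K * (N : ℝ) ^ (1 - δ / 4000) := by
  classical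
  obtain ⟨K, hK, h⟩ := master r δ hδ hδ1
  refine ⟨K, hK, fun N hN D d hd hdN P hP X hX => ?_⟩
  have h1 := h N hN D d hd hdN (fun n => if P n then 1 else 0) ⟨fun x => by dsimp only; split_ifs <;> simp,
    fun j x y hx hy hx1 hy1 h2 h3 => by
      have h4 := hP j x y hx hy hx1 hy1 h2 h3
      dsimp only
      by_cases h5 : P x
      · rw [if_pos h5, if_pos (h4.1 h5)]
      · rw [if_neg h5, if_neg fun h6 => h5 (h4.2 h6)]⟩ X hX
  have e1 : ∑ m ∈ (Icc 1 X).filter D.Mem, (if P m then (1 : ℂ) else 0) = ((cnt (fun n => D.Mem n ∧ P n) X : ℝ) : ℂ) := by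
    rw [cnt_eq, ← sum_filter, filter_filter, sum_const, nsmul_eq_mul, mul_one]
    push_cast
    congr 2
    ext m
    simp only [mem_filter]
  have e2 : ∑ m ∈ Icc 1 X, (if P m then (1 : ℂ) else 0) = ((cnt P X : ℝ) : ℂ) := by
    rw [cnt_eq, ← sum_filter, sum_const, nsmul_eq_mul, mul_one]
    push_cast
    congr 2
  rw [e1, e2, ← Complex.ofReal_mul, ← Complex.ofReal_sub, Complex.norm_real, Real.norm_eq_abs] at h1
  exact h1

end Run7.h914.MC
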