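import Pool.Agent.Run7.h914.MC.Par

/-! The exponential sums with the phases `f (m) / g (m)` modulo a prime. -/

set_option autoImplicit false

namespace Run7.h914.MC

open Finset Polynomial Pool.Agent.Y965.PS Pool.Agent.Y965.PL

theorem sq_half_le_exp {y : ℝ} (hy : 0 ≤ y) : y ^ 2 / 2 ≤ Real.exp y := by
  have := Real.quadratic_le_exp_of_nonneg hy
  linarith

/-- the phases have small correlations -/
theorem ph_corr (δ : ℝ) (hδ : 0 < δ) (hδ1 : δ ≤ 1) (N : ℕ) (hL : 1200 / δ ^ 2 ≤ Real.log N) (p : ℕ) [Fact p.Prime]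
    (hp1 : (N : ℝ) ^ δ ≤ p) (hp2 : (p : ℝ) ≤ (N : ℝ) ^ (2 - δ)) (f g : (ZMod p)[X]) (hg : g ≠ 0)
    (hf : (f.natDegree : ℝ) ≤ (N : ℝ) ^ (δ / 80)) (hgd : (g.natDegree : ℝ) ≤ (N : ℝ) ^ (δ / 80)) (hq : NotQuad f g) :
    Corr δ N (fun m => ph f g (m : ZMod p)) := by
  have hL1 : 1200 ≤ Real.log N := by
    refine le_trans ?_ hL
    rw [le_div_iff₀ (by positivity)]
    nlinarith
  have hNpos : (0 : ℝ) < N := by
    by_contra h
    have h0 : (N : ℝ) = 0 := le_antisymm (not_lt.1 h) (Nat.cast_nonneg _)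
    rw [h0, Real.log_zero] at hL1
    linarith
  set L := Real.log N with hLdef
  have hL0 : 0 ≤ L := by linarith
  have hexp : Real.exp L = N := Real.exp_log hNpos
  have hpow : ∀ a : ℝ, (N : ℝ) ^ a = Real.exp (a * L) := by
    intro a
    rw [← hexp, ← Real.exp_mul]; congr 1; ring
  have hδL : 1200 ≤ δ * L := by
    rw [div_le_iff₀ (by positivity)] at hL
    have h1 : L * δ ^ 2 ≤ L * δ := by
      apply mul_le_mul_of_nonneg_left _ hL0
      nlinarith
    linarith
  have hδ2L : 1200 ≤ δ ^ 2 * L := by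
    rw [div_le_iff₀ (by positivity)] at hL
    linarith
  have hp0 : (0 : ℝ) < p := by exact_mod_cast (Fact.out : p.Prime).pos
  have hp1' : (1 : ℝ) ≤ p := by exact_mod_cast (Fact.out : p.Prime).one_lt.le
  rw [hpow] at hp1 hp2 hf hgd
  set A := Real.exp (δ / 80 * L) with hA
  have hA1 : 1 ≤ A := Real.one_le_exp (by positivity)
  set D := max f.natDegree g.natDegree with hD
  have hDA : (D : ℝ) ≤ A := by
    rw [hD]
    push_cast
    exact max_le hf hgd
  have hpbig : 3 * A < Real.exp (δ * L) := by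
    have h1 : (3 : ℝ) < Real.exp (79 / 80 * (δ * L)) := by
      have := Real.add_one_le_exp (79 / 80 * (δ * L))
      linarith
    calc 3 * A < Real.exp (79 / 80 * (δ * L)) * A := by
          apply mul_lt_mul_of_pos_right h1; linarith
      _ = Real.exp (δ * L) := by rw [hA, ← Real.exp_add]; congr 1; ring
  have h2D : 2 * D + 1 < p := by
    have : ((2 * D + 1 : ℕ) : ℝ) < p := by
      push_cast
      linarith
    exact_mod_cast this
  have hp3 : 2 < p := by
    have h1 : (2 : ℝ) < p := by linarith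
    exact_mod_cast h1
  refine ⟨fun m => (ph_norm f g _).le, ?_⟩
  intro u h m0 J hh1 hh2 _ hJ
  rw [hpow] at hh2
  rw [hpow]
  have hph : ¬ p ∣ h := by
    intro hdiv
    have h1 := Nat.le_of_dvd (by omega) hdiv
    have h2 : (p : ℝ) ≤ h := by exact_mod_cast h1
    have h3 : Real.exp (δ / 10 * L) < Real.exp (δ * L) := Real.exp_lt_exp.2 (by linarith)
    linarith
  have hcop : Nat.Coprime p (2 ^ (5 * u)) := by
    apply Nat.Coprime.pow_right
    rw [Nat.coprime_primes (Fact.out : p.Prime) Nat.prime_two]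
    omega
  have hmain := corr_incomplete hp3 hg (D := D) (le_max_left _ _) (le_max_right _ _) h2D hq hcop hph m0 J
  refine hmain.trans ?_
  have hJN : (J : ℝ) ≤ N := by
    rcases Nat.eq_zero_or_pos J with h0 | h0
    · rw [h0]; exact_mod_cast hNpos.le
    · have h1 := hJ (J - 1) (by omega)
      have h2 : 1 ≤ 2 ^ (5 * u) := Nat.one_le_two_pow
      have h3 : 1 * (J - 1) ≤ 2 ^ (5 * u) * (J - 1) := Nat.mul_le_mul_right _ h2
      have h4 : J ≤ N := by omega
      exact_mod_cast h4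
  have hsq : 0 < Real.sqrt p := Real.sqrt_pos.2 hp0
  have hsq1 : 1 ≤ Real.sqrt p := by rw [Real.one_le_sqrt]; exact hp1'
  have hs1 : Real.exp (δ / 2 * L) ≤ Real.sqrt p := by
    apply Real.le_sqrt_of_sq_le
    rw [← Real.exp_nat_mul]
    refine le_trans (le_of_eq ?_) hp1
    congr 1; push_cast; ring
  have hs2 : Real.sqrt p ≤ Real.exp ((1 - δ / 2) * L) := by
    rw [Real.sqrt_le_left (Real.exp_pos _).le, ← Real.exp_nat_mul]
    refine hp2.trans (le_of_eq ?_)
    congr 1; push_cast; ring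
  have hlogp : Real.log p ≤ 2 * L := by
    have h1 := Real.log_le_log hp0 hp2
    rw [Real.log_exp] at h1
    nlinarith
  have hlogp0 : 0 ≤ Real.log p := Real.log_nonneg hp1'
  have b1 : (2 * (2 * D + 1) : ℝ) * Real.sqrt p + 2 * D ≤ 8 * A * Real.sqrt p := by
    have h1 : (D : ℝ) ≤ A * Real.sqrt p := by nlinarith
    have h2 : (D : ℝ) * Real.sqrt p ≤ A * Real.sqrt p := mul_le_mul_of_nonneg_right hDA hsq.le
    have h3 : Real.sqrt p ≤ A * Real.sqrt p := by nlinarith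
    nlinarith
  have b2 : (J : ℝ) / p + 1 + Real.log p ≤ N / p + (1 + 2 * L) := by
    have : (J : ℝ) / p ≤ N / p := div_le_div_of_nonneg_right hJN hp0.le
    linarith
  have b3 : Real.sqrt p * (N / p) ≤ Real.exp ((1 - δ / 2) * L) := by
    have e1 : Real.sqrt p * (N / p) = N / Real.sqrt p := by
      rw [eq_div_iff hsq.ne']
      have h0 : Real.sqrt p * Real.sqrt p = p := Real.mul_self_sqrt hp0.le
      calc Real.sqrt p * (N / p) * Real.sqrt p = (Real.sqrt p * Real.sqrt p) * (N / p) := by ring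
        _ = p * (N / p) := by rw [h0]
        _ = N := by field_simp
    rw [e1, div_le_iff₀ hsq]
    calc (N : ℝ) = Real.exp ((1 - δ / 2) * L) * Real.exp (δ / 2 * L) := by
          rw [← Real.exp_add, ← hexp]; congr 1; ring
      _ ≤ _ := mul_le_mul_of_nonneg_left hs1 (Real.exp_pos _).le
  have b4 : (J : ℝ) / p + 1 + Real.log p ≤ N / p + (1 + 2 * L) := b2
  calc ((2 * (2 * D + 1) : ℝ) * Real.sqrt p + 2 * D) * ((J : ℝ) / p + 1 + Real.log p)
      ≤ (8 * A * Real.sqrt p) * (N / p + (1 + 2 * L)) := mul_le_mul b1 b2 (by positivity) (by positivity)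
    _ = 8 * A * (Real.sqrt p * (N / p)) + 8 * A * (1 + 2 * L) * Real.sqrt p := by ring
    _ ≤ 8 * A * Real.exp ((1 - δ / 2) * L) + 8 * A * (1 + 2 * L) * Real.exp ((1 - δ / 2) * L) := by
        apply add_le_add
        · exact mul_le_mul_of_nonneg_left b3 (by positivity)
        · exact mul_le_mul_of_nonneg_left hs2 (by positivity)
    _ = (16 * (1 + L)) * (A * Real.exp ((1 - δ / 2) * L)) := by ring
    _ ≤ Real.exp (0.2375 * (δ * L)) * (A * Real.exp ((1 - δ / 2) * L)) := by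
        apply mul_le_mul_of_nonneg_right _ (by positivity)
        have h1 := sq_half_le_exp (y := 0.2375 * (δ * L)) (by positivity)
        have h2 : (0.2375 * (δ * L)) ^ 2 / 2 = 0.028203125 * ((δ ^ 2 * L) * L) := by ring
        rw [h2] at h1
        have h3 : 1200 * L ≤ (δ ^ 2 * L) * L := mul_le_mul_of_nonneg_right hδ2L hL0
        linarith
    _ = Real.exp ((1 - δ / 4) * L) := by
        rw [hA, ← Real.exp_add, ← Real.exp_add]; congr 1; ring

/-- THE EXPONENTIAL SUMS -/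
theorem main_exp (δ : ℝ) (hδ : 0 < δ) (hδ1 : δ ≤ 1) : ∃ C : ℝ, 1 ≤ C ∧ ∀ N : ℕ, 1 ≤ N → ∀ (p : ℕ) [Fact p.Prime],
    (N : ℝ) ^ δ ≤ p → (p : ℝ) ≤ (N : ℝ) ^ (2 - δ) → ∀ f g : (ZMod p)[X], g ≠ 0 →
    (f.natDegree : ℝ) ≤ (N : ℝ) ^ (δ / 80) → (g.natDegree : ℝ) ≤ (N : ℝ) ^ (δ / 80) → NotQuad f g →
    ∀ d : ℤ, d % 2 = 1 → |(d : ℝ)| ≤ (N : ℝ) ^ (δ / 80) → ∀ F : ℕ → ℂ, Syn d N F →
      ‖∑ m ∈ Icc 1 N, F m * ph f g (m : ZMod p)‖ ≤ C * (N : ℝ) ^ (1 - δ / 1000) := by
  obtain ⟨C, hC, h⟩ := crit δ hδ hδ1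
  refine ⟨C + Real.exp (1200 / δ ^ 2), by have := Real.exp_pos (1200 / δ ^ 2); linarith, ?_⟩
  intro N hN p _ hp1 hp2 f g hg hf hgd hq d hd hdN F hF
  have hNpos : (0 : ℝ) < N := by exact_mod_cast hN
  have hE : (1 : ℝ) ≤ (N : ℝ) ^ (1 - δ / 1000) :=
    Real.one_le_rpow (by exact_mod_cast hN) (by linarith)
  rcases le_or_gt (1200 / δ ^ 2) (Real.log N) with hL | hL
  · refine (h N hN _ (ph_corr δ hδ hδ1 N hL p hp1 hp2 f g hg hf hgd hq) d hd hdN F hF).trans ?_
    apply mul_le_mul_of_nonneg_right _ (by linarith)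
    have := Real.exp_pos (1200 / δ ^ 2)
    linarith
  · have h1 : ‖∑ m ∈ Icc 1 N, F m * ph f g (m : ZMod p)‖ ≤ N := by
      refine (norm_sum_le _ _).trans ?_
      have h2 : ∀ m ∈ Icc 1 N, ‖F m * ph f g (m : ZMod p)‖ ≤ 1 := by
        intro m _
        rw [norm_mul, ph_norm, mul_one]
        exact hF.1 m
      refine (sum_le_sum h2).trans ?_
      simp
    have h2 : (N : ℝ) ≤ Real.exp (1200 / δ ^ 2) := by
      rw [← Real.exp_log hNpos]
      exact Real.exp_le_exp.2 hL.le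
    have h3 := Real.exp_pos (1200 / δ ^ 2)
    calc _ ≤ (N : ℝ) := h1
      _ ≤ Real.exp (1200 / δ ^ 2) * 1 := by linarith
      _ ≤ (C + Real.exp (1200 / δ ^ 2)) * (N : ℝ) ^ (1 - δ / 1000) := by
          apply mul_le_mul _ hE (by norm_num) (by linarith)
          linarith

end Run7.h914.MC
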