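import Pool.Agent.Y965.PL.Disp

/-! The dispersion inequality for the maps `x / 2`, `(3 x + d) / 2` for all odd `d`. -/

set_option autoImplicit false

namespace Run7.h914.MC

open Finset Pool.Agent.Y965.PS Pool.Agent.Y965.PL

variable {d : ℤ}

theorem abs_one_le (hd : d % 2 = 1) : (1 : ℝ) ≤ |(d : ℝ)| := by
  have h : (1 : ℤ) ≤ |d| := by
    rcases abs_cases d with ⟨h, _⟩ | ⟨h, _⟩ <;> omega
  have h2 : (1 : ℝ) ≤ ((|d| : ℤ) : ℝ) := by exact_mod_cast h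
  rwa [Int.cast_abs] at h2

theorem pair_small' (hd : d % 2 = 1) (u : ℕ) {R : ℝ} {x y : ℤ} (hx : Good d u R x)
    (hy : Good d u R y) (h : kp d u x = kp d u y) :
    ((y - x : ℤ) : ℝ) ≤ |(d : ℝ)| * R * (32 / 9) ^ u := by
  rcases le_or_gt (y - x) 0 with hneg | hpos
  · have h1 : ((y - x : ℤ) : ℝ) ≤ 0 := by exact_mod_cast hneg
    refine h1.trans ?_
    have h2 : (0 : ℝ) ≤ R * 2 ^ (5 * u) := by
      have := oc_nonneg (d := d) x (5 * u)
      have h3 : (0 : ℝ) ≤ (oc d (5 * u) x : ℝ) := by exact_mod_cast this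
      linarith [hx.2.2]
    have h3 : 0 ≤ R := by
      by_contra hR
      push Not at hR
      have : R * 2 ^ (5 * u) < 0 := mul_neg_of_neg_of_pos hR (by positivity)
      linarith
    positivity
  unfold kp at h
  rw [Prod.mk.injEq] at h
  have h1 := main_id hd x (5 * u)
  have h2 := main_id hd y (5 * u)
  rw [h.1, h.2] at h1
  have h3 : (3 : ℤ) ^ (ac d (5 * u) y) * (y - x) = d * (oc d (5 * u) x - oc d (5 * u) y) := by linarith
  have hcx := oc_nonneg (d := d) x (5 * u)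
  have hcy := oc_nonneg (d := d) y (5 * u)
  have h4 : (3 : ℝ) ^ (ac d (5 * u) y) * ((y - x : ℤ) : ℝ) ≤ |(d : ℝ)| * (R * 2 ^ (5 * u)) := by
    have h5 : (3 : ℝ) ^ (ac d (5 * u) y) * ((y - x : ℤ) : ℝ)
        = (d : ℝ) * ((oc d (5 * u) x : ℝ) - (oc d (5 * u) y : ℝ)) := by exact_mod_cast h3
    rw [h5]
    have h6 : |((oc d (5 * u) x : ℝ) - (oc d (5 * u) y : ℝ))| ≤ R * 2 ^ (5 * u) := by
      have c1 : (0 : ℝ) ≤ (oc d (5 * u) x : ℝ) := by exact_mod_cast hcx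
      have c2 : (0 : ℝ) ≤ (oc d (5 * u) y : ℝ) := by exact_mod_cast hcy
      rw [abs_le]
      constructor
      · linarith [hy.2.2]
      · linarith [hx.2.2]
    calc (d : ℝ) * ((oc d (5 * u) x : ℝ) - (oc d (5 * u) y : ℝ))
        ≤ |(d : ℝ) * ((oc d (5 * u) x : ℝ) - (oc d (5 * u) y : ℝ))| := le_abs_self _
      _ = |(d : ℝ)| * |((oc d (5 * u) x : ℝ) - (oc d (5 * u) y : ℝ))| := abs_mul _ _
      _ ≤ _ := mul_le_mul_of_nonneg_left h6 (abs_nonneg _)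
  have h7 : (3 : ℝ) ^ (2 * u) ≤ 3 ^ (ac d (5 * u) y) := pow_le_pow_right₀ (by norm_num) hy.1
  have h8 : (0 : ℝ) ≤ ((y - x : ℤ) : ℝ) := by exact_mod_cast hpos.le
  have h9 : (3 : ℝ) ^ (2 * u) * ((y - x : ℤ) : ℝ) ≤ |(d : ℝ)| * (R * 2 ^ (5 * u)) :=
    (mul_le_mul_of_nonneg_right h7 h8).trans h4
  have h10 : (3 : ℝ) ^ (2 * u) = 9 ^ u := by rw [pow_mul]; norm_num
  have h11 : (2 : ℝ) ^ (5 * u) = 32 ^ u := by rw [pow_mul]; norm_num
  rw [h10, h11] at h9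
  rw [div_pow]
  have h12 : (0 : ℝ) < 9 ^ u := by positivity
  rw [← mul_div_assoc, le_div_iff₀ h12, mul_comm]
  linarith

theorem value_abs_le (hd : d % 2 = 1) (u : ℕ) {R : ℝ} {x : ℤ} (hx0 : 0 ≤ x) (hx : Good d u R x) :
    |(((Tz d)^[5 * u] x : ℤ) : ℝ)| ≤ x * (27 / 32) ^ u + |(d : ℝ)| * R := by
  have h1 := main_id hd x (5 * u)
  have hc := oc_nonneg (d := d) x (5 * u)
  have hc' : (0 : ℝ) ≤ (oc d (5 * u) x : ℝ) := by exact_mod_cast hc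
  have h2 : (2 : ℝ) ^ (5 * u) * (((Tz d)^[5 * u] x : ℤ) : ℝ)
      = 3 ^ (ac d (5 * u) x) * x + d * oc d (5 * u) x := by exact_mod_cast h1
  have h4 : (3 : ℝ) ^ (ac d (5 * u) x) ≤ 3 ^ (3 * u) := pow_le_pow_right₀ (by norm_num) hx.2.1
  have h5 : (0 : ℝ) ≤ x := by exact_mod_cast hx0
  have h12 : (0 : ℝ) < 32 ^ u := by positivity
  have h10 : (3 : ℝ) ^ (3 * u) = 27 ^ u := by rw [pow_mul]; norm_num
  have h11 : (2 : ℝ) ^ (5 * u) = 32 ^ u := by rw [pow_mul]; norm_num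
  have h6 : (2 : ℝ) ^ (5 * u) * |(((Tz d)^[5 * u] x : ℤ) : ℝ)| ≤ 3 ^ (3 * u) * x + |(d : ℝ)| * (R * 2 ^ (5 * u)) := by
    have e : (2 : ℝ) ^ (5 * u) * |(((Tz d)^[5 * u] x : ℤ) : ℝ)| = |(2 : ℝ) ^ (5 * u) * (((Tz d)^[5 * u] x : ℤ) : ℝ)| := by
      rw [abs_mul, abs_of_pos (by positivity : (0 : ℝ) < 2 ^ (5 * u))]
    rw [e, h2]
    refine (abs_add_le _ _).trans ?_
    have a1 : |(3 : ℝ) ^ (ac d (5 * u) x) * x| ≤ 3 ^ (3 * u) * x := by
      rw [abs_of_nonneg (by positivity)]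
      exact mul_le_mul_of_nonneg_right h4 h5
    have a2 : |(d : ℝ) * oc d (5 * u) x| ≤ |(d : ℝ)| * (R * 2 ^ (5 * u)) := by
      rw [abs_mul, abs_of_nonneg hc']
      exact mul_le_mul_of_nonneg_left hx.2.2 (abs_nonneg _)
    exact add_le_add a1 a2
  rw [h10, h11] at h6
  rw [div_pow]
  have h13 : |(((Tz d)^[5 * u] x : ℤ) : ℝ)| ≤ (27 ^ u * x + |(d : ℝ)| * (R * 32 ^ u)) / 32 ^ u := by
    rw [le_div_iff₀ h12]; linarith
  refine h13.trans (le_of_eq ?_)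
  field_simp

open Classical in
/-- number of the points reached -/
theorem image_card' (hd : d % 2 = 1) (u : ℕ) {R : ℝ} (hR : 0 ≤ R) (N1 N : ℕ) :
    (((GS d u R N1 N).image fun m : ℕ => kp d u (m : ℤ)).card : ℝ) ≤
      (u + 1) * (2 * (N * (27 / 32) ^ u + |(d : ℝ)| * R) + 1) := by
  set V : ℝ := N * (27 / 32) ^ u + |(d : ℝ)| * R with hV
  have hV0 : 0 ≤ V := by positivity
  have hsub : ((GS d u R N1 N).image fun m : ℕ => kp d u (m : ℤ)) ⊆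
      (Icc (-⌊V⌋) ⌊V⌋) ×ˢ (Icc (2 * u) (3 * u)) := by
    intro p hp
    rw [mem_image] at hp
    obtain ⟨m, hm, rfl⟩ := hp
    rw [mem_GS] at hm
    unfold kp
    rw [mem_product, mem_Icc, mem_Icc]
    have h1 : |(((Tz d)^[5 * u] (m : ℤ) : ℤ) : ℝ)| ≤ V := by
      refine (value_abs_le hd u (by positivity) hm.2).trans ?_
      rw [hV]
      have : ((m : ℤ) : ℝ) ≤ N := by exact_mod_cast hm.1.2
      gcongr
    have h2 : |(Tz d)^[5 * u] (m : ℤ)| ≤ ⌊V⌋ := by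
      apply Int.le_floor.2
      rw [Int.cast_abs]
      exact h1
    exact ⟨abs_le.1 h2, hm.2.1, hm.2.2.1⟩
  have h1 := card_le_card hsub
  rw [card_product, Nat.card_Icc, Int.card_Icc] at h1
  have h3' : 0 ≤ ⌊V⌋ := Int.floor_nonneg.2 hV0
  have h2 : ((⌊V⌋ + 1 - -⌊V⌋).toNat : ℝ) ≤ 2 * V + 1 := by
    have h4 : (((⌊V⌋ + 1 - -⌊V⌋).toNat : ℤ) : ℝ) = 2 * (⌊V⌋ : ℝ) + 1 := by
      rw [Int.toNat_of_nonneg (by omega)]
      push_cast
      ring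
    have h5 : (((⌊V⌋ + 1 - -⌊V⌋).toNat : ℕ) : ℝ) = 2 * (⌊V⌋ : ℝ) + 1 := by exact_mod_cast h4
    rw [h5]
    linarith [Int.floor_le V]
  have h3 : (3 * u + 1 - 2 * u : ℕ) = u + 1 := by omega
  rw [h3] at h1
  have h4 : (((GS d u R N1 N).image fun m : ℕ => kp d u (m : ℤ)).card : ℝ) ≤
      ((⌊V⌋ + 1 - -⌊V⌋).toNat : ℝ) * ((u + 1 : ℕ) : ℝ) := by exact_mod_cast h1
  refine h4.trans ?_
  push_cast
  rw [mul_comm]
  exact mul_le_mul_of_nonneg_left h2 (by positivity)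

open Classical in
theorem upper_pairs' (hd : d % 2 = 1) (u : ℕ) {R : ℝ} (N1 N : ℕ) (z : ℕ → ℂ) :
    ∑ p ∈ (PP d u R N1 N).filter (fun p => p.1 < p.2), z p.1 * (starRingEnd ℂ) (z p.2)
      = ∑ h ∈ Icc 1 ⌊|(d : ℝ)| * R * (32 / 9) ^ u⌋₊, ∑ m ∈ (Ioc N1 (N - h)).filter (fun m : ℕ => Pair d u R h m),
          z m * (starRingEnd ℂ) (z (m + h)) := by
  rw [sum_sigma']
  refine sum_bij' (fun p _ => ⟨p.2 - p.1, p.1⟩) (fun q _ => (q.2, q.2 + q.1)) ?_ ?_ ?_ ?_ ?_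
  · intro p hp
    rw [mem_filter, mem_PP, mem_GS, mem_GS] at hp
    obtain ⟨⟨⟨⟨a1, a2⟩, b1, b2⟩, hk⟩, hlt⟩ := hp
    rw [mem_sigma, mem_Icc, mem_filter, mem_Ioc]
    have e : ((p.1 : ℤ) + ((p.2 - p.1 : ℕ) : ℤ)) = (p.2 : ℤ) := by omega
    refine ⟨⟨by dsimp only; omega, ?_⟩, ⟨by dsimp only; omega, by dsimp only; omega⟩, ?_⟩
    · apply Nat.le_floor
      have h1 := pair_small' hd u a2 b2 hk
      have h2 : (((p.2 : ℤ) - (p.1 : ℤ) : ℤ) : ℝ) = ((p.2 - p.1 : ℕ) : ℝ) := by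
        have : ((p.2 : ℤ) - (p.1 : ℤ) : ℤ) = ((p.2 - p.1 : ℕ) : ℤ) := by omega
        rw [this]; norm_cast
      rw [h2] at h1
      exact h1
    · unfold Pair
      dsimp only
      rw [e]
      exact ⟨a2, b2, hk⟩
  · rintro ⟨h, m⟩ hq
    rw [mem_sigma, mem_Icc, mem_filter, mem_Ioc] at hq
    dsimp only at hq
    obtain ⟨⟨h1, h2⟩, ⟨h3, h4⟩, h5, h6, h7⟩ := hq
    rw [mem_filter, mem_PP, mem_GS, mem_GS]
    dsimp only
    push_cast
    refine ⟨⟨⟨⟨⟨h3, by omega⟩, h5⟩, ⟨by omega, by omega⟩, h6⟩, h7⟩, by omega⟩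
  · intro p hp
    rw [mem_filter] at hp
    have : p.1 + (p.2 - p.1) = p.2 := by omega
    simp only [this, Prod.mk.eta]
  · rintro ⟨h, m⟩ _
    simp
  · intro p hp
    rw [mem_filter] at hp
    have : p.1 + (p.2 - p.1) = p.2 := by omega
    simp only [this]

/-- a function on the positive integers of absolute value at most one that takes the same value at two
integers up to `N` and larger than `2 ^ j` whose trajectories are at the same point at the time `j`, with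
the same number of odd terms -/
def Syn (d : ℤ) (N : ℕ) (F : ℕ → ℂ) : Prop :=
  (∀ x, ‖F x‖ ≤ 1) ∧ ∀ (j x y : ℕ), x ≤ N → y ≤ N → 2 ^ j < x → 2 ^ j < y →
    (Tz d)^[j] (x : ℤ) = (Tz d)^[j] (y : ℤ) → ac d j x = ac d j y → F x = F y

theorem Syn.mono {N N' : ℕ} (h : N' ≤ N) {F : ℕ → ℂ} (hF : Syn d N F) : Syn d N' F :=
  ⟨hF.1, fun j x y hx hy => hF.2 j x y (hx.trans h) (hy.trans h)⟩

theorem Syn_of_ASync {F : ℤ → ℝ} (hF : ASync d F) (N : ℕ) : Syn d N (fun n => ((F n : ℝ) : ℂ)) := by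
  refine ⟨fun x => ?_, fun j x y _ _ hx hy h1 h2 => ?_⟩
  · rw [Complex.norm_real, Real.norm_eq_abs]
    exact hF.1 x
  · show ((F x : ℝ) : ℂ) = ((F y : ℝ) : ℂ)
    rw [hF.2 j x y (by exact_mod_cast hx) (by exact_mod_cast hy) h1 h2]

open Classical in
/-- THE DISPERSION INEQUALITY -/
theorem disp' (hd : d % 2 = 1) (u : ℕ) {R : ℝ} (hR : 0 ≤ R) (N1 N : ℕ) (hu : 2 ^ (5 * u) ≤ N1) {F : ℕ → ℂ} (hF : Syn d N F)
    {z : ℕ → ℂ} (hz1 : ∀ m, ‖z m‖ ≤ 1) {β : ℕ → ℝ} (hβ : ∀ h, 0 ≤ β h)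
    (hz : ∀ h : ℕ, 1 ≤ h → (h : ℝ) ≤ |(d : ℝ)| * R * (32 / 9) ^ u → ∀ m0 J : ℕ, N1 < m0 →
      (∀ j < J, m0 + 2 ^ (5 * u) * j + h ≤ N) →
      ‖∑ j ∈ range J, z (m0 + 2 ^ (5 * u) * j) * (starRingEnd ℂ) (z (m0 + 2 ^ (5 * u) * j + h))‖ ≤ β h) :
    ‖∑ m ∈ GS d u R N1 N, F m * z m‖ ^ 2 ≤ ((u + 1) * (2 * (N * (27 / 32) ^ u + |(d : ℝ)| * R) + 1)) *
      (N + 2 * (2 ^ (5 * u) * ∑ h ∈ Icc 1 ⌊|(d : ℝ)| * R * (32 / 9) ^ u⌋₊, β h)) := by
  set G := GS d u R N1 N with hG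
  set κ : ℕ → ℤ × ℕ := fun m => kp d u (m : ℤ) with hκ
  set I := G.image κ with hI
  set A : ℤ × ℕ → ℂ := fun p => ∑ m ∈ G.filter (fun m => κ m = p), z m with hA
  -- step 1
  have h1 : ‖∑ m ∈ G, F m * z m‖ ≤ ∑ p ∈ I, ‖A p‖ := by
    rw [← sum_fiberwise_of_maps_to (s := G) (t := I) (g := κ) (fun m hm => mem_image_of_mem _ hm)]
    refine (norm_sum_le _ _).trans (sum_le_sum fun p hp => ?_)
    rw [hI, mem_image] at hp
    obtain ⟨m0, hm0, hp0⟩ := hp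
    have e : ∑ m ∈ G.filter (fun m => κ m = p), F m * z m = F m0 * A p := by
      rw [hA]
      dsimp only
      rw [mul_sum]
      apply sum_congr rfl
      intro m hm
      rw [mem_filter] at hm
      have h2 : κ m = κ m0 := by rw [hm.2, hp0]
      rw [hκ] at h2
      unfold kp at h2
      simp only [Prod.mk.injEq] at h2
      have hmG : m ∈ GS d u R N1 N := hm.1
      have hm0G : m0 ∈ GS d u R N1 N := hm0
      rw [mem_GS] at hmG hm0G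
      have i1 : 2 ^ (5 * u) < m := lt_of_le_of_lt hu hmG.1.1
      have i2 : 2 ^ (5 * u) < m0 := lt_of_le_of_lt hu hm0G.1.1
      rw [hF.2 (5 * u) m m0 hmG.1.2 hm0G.1.2 i1 i2 h2.1 h2.2]
    rw [e, norm_mul]
    have := hF.1 m0
    nlinarith [norm_nonneg (A p)]
  -- step 2
  have h2 : (∑ p ∈ I, ‖A p‖) ^ 2 ≤ I.card * ∑ p ∈ I, ‖A p‖ ^ 2 := sq_sum_le_card_mul_sum_sq
  -- step 3
  have h3 : ((∑ p ∈ I, ‖A p‖ ^ 2 : ℝ) : ℂ) = ∑ p ∈ PP d u R N1 N, z p.1 * (starRingEnd ℂ) (z p.2) := by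
    have e1 : ∑ p ∈ PP d u R N1 N, z p.1 * (starRingEnd ℂ) (z p.2)
        = ∑ m ∈ G, ∑ m' ∈ G.filter (fun m' => κ m = κ m'), z m * (starRingEnd ℂ) (z m') := by
      unfold PP
      rw [sum_filter, sum_product]
      exact sum_congr rfl fun m _ => (sum_filter _ _).symm
    rw [e1, ← sum_fiberwise_of_maps_to (s := G) (t := I) (g := κ) (fun m hm => mem_image_of_mem _ hm)]
    push_cast
    apply sum_congr rfl
    intro p _
    have e2 : ∑ m ∈ G.filter (fun m => κ m = p), ∑ m' ∈ G.filter (fun m' => κ m = κ m'), z m * (starRingEnd ℂ) (z m')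
        = ∑ m ∈ G.filter (fun m => κ m = p), ∑ m' ∈ G.filter (fun m' => κ m' = p), z m * (starRingEnd ℂ) (z m') := by
      apply sum_congr rfl
      intro m hm
      rw [mem_filter] at hm
      rw [hm.2]
      apply sum_congr _ fun _ _ => rfl
      ext m'
      rw [mem_filter, mem_filter]
      constructor
      · rintro ⟨a, b⟩; exact ⟨a, b.symm⟩
      · rintro ⟨a, b⟩; exact ⟨a, b.symm⟩
    rw [e2, ← sum_mul_sum, ← map_sum]
    rw [← Complex.ofReal_pow, ← Complex.normSq_eq_norm_sq, Complex.mul_conj]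
  -- step 4
  set D : ℂ := ∑ p ∈ (PP d u R N1 N).filter (fun p => p.1 < p.2), z p.1 * (starRingEnd ℂ) (z p.2) with hD
  have h4 : ∑ p ∈ PP d u R N1 N, z p.1 * (starRingEnd ℂ) (z p.2)
      = ∑ p ∈ (PP d u R N1 N).filter (fun p => p.1 = p.2), z p.1 * (starRingEnd ℂ) (z p.2)
        + (D + (starRingEnd ℂ) D) := by
    rw [← sum_filter_add_sum_filter_not (PP d u R N1 N) (fun p => p.1 = p.2)]
    congr 1
    rw [← sum_filter_add_sum_filter_not ((PP d u R N1 N).filter fun p => ¬ p.1 = p.2) (fun p => p.1 < p.2)]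
    congr 1
    · rw [hD, filter_filter]
      apply sum_congr _ fun _ _ => rfl
      apply filter_congr
      intro p _
      omega
    · rw [hD, map_sum, filter_filter]
      refine sum_bij' (fun p _ => (p.2, p.1)) (fun p _ => (p.2, p.1)) ?_ ?_ ?_ ?_ ?_
      · intro p hp
        rw [mem_filter, mem_PP] at hp ⊢
        exact ⟨⟨⟨hp.1.1.2, hp.1.1.1⟩, hp.1.2.symm⟩, by dsimp only; omega⟩
      · intro p hp
        rw [mem_filter, mem_PP] at hp ⊢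
        refine ⟨⟨⟨hp.1.1.2, hp.1.1.1⟩, hp.1.2.symm⟩, ?_⟩
        dsimp only
        have := hp.2
        omega
      · intro p _; rfl
      · intro p _; rfl
      · intro p _
        dsimp only
        rw [map_mul, Complex.conj_conj, mul_comm]
  have h5 : ‖∑ p ∈ (PP d u R N1 N).filter (fun p => p.1 = p.2), z p.1 * (starRingEnd ℂ) (z p.2)‖ ≤ N := by
    refine (norm_sum_le _ _).trans ?_
    have h6 : ∀ p ∈ (PP d u R N1 N).filter (fun p => p.1 = p.2), ‖z p.1 * (starRingEnd ℂ) (z p.2)‖ ≤ 1 := by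
      intro p _
      rw [norm_mul, RCLike.norm_conj]
      have a := hz1 p.1
      have b := hz1 p.2
      nlinarith [norm_nonneg (z p.1), norm_nonneg (z p.2)]
    refine (sum_le_sum h6).trans ?_
    rw [sum_const, nsmul_eq_mul, mul_one]
    have h7 : ((PP d u R N1 N).filter (fun p => p.1 = p.2)) ⊆ (Icc 1 N).image fun m => (m, m) := by
      intro p hp
      rw [mem_filter, mem_PP, mem_GS] at hp
      rw [mem_image]
      refine ⟨p.1, ?_, ?_⟩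
      · rw [mem_Icc]; have := hp.1.1.1.1; omega
      · ext
        · rfl
        · exact hp.2
    have h8 := (card_le_card h7).trans card_image_le
    rw [Nat.card_Icc, Nat.add_sub_cancel] at h8
    exact_mod_cast h8
  have h6 : ‖D‖ ≤ 2 ^ (5 * u) * ∑ h ∈ Icc 1 ⌊|(d : ℝ)| * R * (32 / 9) ^ u⌋₊, β h := by
    rw [hD, upper_pairs' hd, mul_sum]
    refine (norm_sum_le _ _).trans (sum_le_sum fun h hh => ?_)
    rw [mem_Icc] at hh
    have hh2 : (h : ℝ) ≤ |(d : ℝ)| * R * (32 / 9) ^ u := (Nat.le_floor_iff (by positivity)).1 hh.2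
    exact pair_sum u R N1 N h (hz h hh.1 hh2) (hβ h)
  have h7 : ∑ p ∈ I, ‖A p‖ ^ 2 ≤ N + 2 * (2 ^ (5 * u) * ∑ h ∈ Icc 1 ⌊|(d : ℝ)| * R * (32 / 9) ^ u⌋₊, β h) := by
    have h8 : ‖((∑ p ∈ I, ‖A p‖ ^ 2 : ℝ) : ℂ)‖ = ∑ p ∈ I, ‖A p‖ ^ 2 := by
      rw [Complex.norm_real, Real.norm_eq_abs, abs_of_nonneg (sum_nonneg fun _ _ => by positivity)]
    rw [← h8, h3, h4]
    refine (norm_add_le _ _).trans ?_
    have h9 := norm_add_le D ((starRingEnd ℂ) D)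
    rw [RCLike.norm_conj] at h9
    linarith
  calc _ ≤ (∑ p ∈ I, ‖A p‖) ^ 2 := pow_le_pow_left₀ (norm_nonneg _) h1 2
    _ ≤ I.card * ∑ p ∈ I, ‖A p‖ ^ 2 := h2
    _ ≤ _ := mul_le_mul (image_card' hd u hR N1 N) h7 (sum_nonneg fun _ _ => by positivity) (by positivity)

end Run7.h914.MC
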