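import Pool.Agent.Run7.h914.MC.Dat
import Pool.Agent.H499R2.NDCor

/-! Invariant sets of the maps `x / 2`, `(3 x + d) / 2` and the sets of a datum. -/

set_option autoImplicit false
set_option linter.all false

namespace Run7.h914.MC

open Finset Polynomial Filter Topology Pool.Agent.Y965.PS Pool.Agent.Y965.PL Pool.Agent.H499R2.ND

variable {d : ℤ}

theorem Tz_eq_Td (d : ℤ) : Tz d = Td d := rfl

theorem Tz_neg (hd : d % 2 = 1) (x : ℤ) : Tz d (-x) = -Tz (-d) x := by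
  unfold Tz
  split_ifs <;> omega

theorem Tz_side {s : ℤ} (hs : s = 1 ∨ s = -1) (hd : d % 2 = 1) (x : ℤ) : Tz d (s * x) = s * Tz (s * d) x := by
  rcases hs with rfl | rfl
  · rw [one_mul, one_mul, one_mul]
  · have h := Tz_neg hd x
    rw [neg_one_mul, neg_one_mul, neg_one_mul]
    exact h

theorem iter_side {s : ℤ} (hs : s = 1 ∨ s = -1) (hd : d % 2 = 1) (j : ℕ) : ∀ x : ℤ, (Tz d)^[j] (s * x) = s * (Tz (s * d))^[j] x := by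
  induction j with
  | zero => intro x; rfl
  | succ j ih =>
    intro x
    rw [Function.iterate_succ_apply, Function.iterate_succ_apply, Tz_side hs hd, ih]

theorem inv_it {S : Set ℤ} (hS : ∀ x, x ∈ S ↔ Td d x ∈ S) (j : ℕ) : ∀ x, x ∈ S ↔ (Td d)^[j] x ∈ S := by
  induction j with
  | zero => intro x; rfl
  | succ j ih => intro x; rw [hS x, ih, Function.iterate_succ_apply]

theorem inv_synP (hd : d % 2 = 1) {S : Set ℤ} (hS : ∀ x, x ∈ S ↔ Td d x ∈ S) {s : ℤ} (hs : s = 1 ∨ s = -1) (N : ℕ) :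
    SynP (s * d) N (fun n => s * (n : ℤ) ∈ S) := by
  intro j x y _ _ _ _ h _
  show s * (x : ℤ) ∈ S ↔ s * (y : ℤ) ∈ S
  rw [inv_it hS j (s * (x : ℤ)), inv_it hS j (s * (y : ℤ)), ← Tz_eq_Td, iter_side hs hd, iter_side hs hd, h]

theorem side_mod {s : ℤ} (hs : s = 1 ∨ s = -1) (hd : d % 2 = 1) : (s * d) % 2 = 1 := by
  rcases hs with rfl | rfl <;> omega

theorem side_abs {s : ℤ} (hs : s = 1 ∨ s = -1) : |((s * d : ℤ) : ℝ)| = |(d : ℝ)| := by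
  rcases hs with rfl | rfl
  · rw [one_mul]
  · push_cast
    rw [neg_one_mul, abs_neg]

/-- THE TRANSFER THEOREM FOR INVARIANT SETS -/
theorem inv_sets (r : ℕ) (δ : ℝ) (hδ : 0 < δ) (hδ1 : δ ≤ 1) : ∃ K : ℝ, 1 ≤ K ∧ ∀ N : ℕ, 1 ≤ N → ∀ D : Datum δ N r,
    ∀ d : ℤ, d % 2 = 1 → |(d : ℝ)| ≤ (N : ℝ) ^ (δ / 200) → ∀ s : ℤ, s = 1 ∨ s = -1 → ∀ S : Set ℤ,
    (∀ x, x ∈ S ↔ Td d x ∈ S) → ∀ X : ℕ, X ≤ N →
      |cnt (fun n => D.Mem n ∧ s * (n : ℤ) ∈ S) X - D.vol * cnt (fun n => s * (n : ℤ) ∈ S) X| ≤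
        K * (N : ℝ) ^ (1 - δ / 4000) := by
  obtain ⟨K, hK, h⟩ := sets r δ hδ hδ1
  refine ⟨K, hK, fun N hN D d hd hdN s hs S hS X hX => ?_⟩
  exact h N hN D (s * d) (side_mod hs hd) (by rw [side_abs hs]; exact hdN) _ (inv_synP hd hS hs N) X hX

theorem side_cnt {s : ℤ} (hs : s = 1 ∨ s = -1) (S : Set ℤ) (N : ℕ) :
    ({n : ℤ | 0 < s * n ∧ s * n ≤ N ∧ n ∈ S}.ncard : ℝ) = cnt (fun n => s * (n : ℤ) ∈ S) N := by
  classical
  have hss : ∀ w : ℤ, s * (s * w) = w := by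
    intro w
    rcases hs with rfl | rfl <;> ring
  rw [cnt_eq]
  have e : {n : ℤ | 0 < s * n ∧ s * n ≤ N ∧ n ∈ S} =
      (fun m : ℕ => s * (m : ℤ)) '' (((Icc 1 N).filter fun n : ℕ => s * (n : ℤ) ∈ S : Finset ℕ) : Set ℕ) := by
    ext n
    simp only [Set.mem_ofPred_eq, Set.mem_image, Finset.coe_filter, Finset.mem_Icc]
    constructor
    · rintro ⟨h1, h2, h3⟩
      have h4 : (((s * n).toNat : ℕ) : ℤ) = s * n := Int.toNat_of_nonneg h1.le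
      refine ⟨(s * n).toNat, ⟨⟨by omega, by omega⟩, ?_⟩, ?_⟩
      · rw [h4, hss]; exact h3
      · rw [h4, hss]
    · rintro ⟨m, ⟨⟨h1, h2⟩, h3⟩, rfl⟩
      rw [hss]
      exact ⟨by omega, by omega, h3⟩
  rw [e, Set.ncard_image_of_injective, Set.ncard_coe_finset]
  intro a b hab
  have h1 : s * (a : ℤ) = s * (b : ℤ) := hab
  have h2 := congrArg (fun t => s * t) h1
  simp only [hss] at h2
  exact_mod_cast h2

/-- the natural density of the positive integers with the property `P` -/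
def Dens (P : ℕ → Prop) (l : ℝ) : Prop := Tendsto (fun N : ℕ => cnt P N / N) atTop (𝓝 l)

theorem dens_inv (hd : d % 2 = 1) (hd3 : IsCoprime d 3) {s : ℤ} (hs : s = 1 ∨ s = -1) {S : Set ℤ}
    (hS : ∀ x, x ∈ S ↔ Td d x ∈ S) : ∃ l : ℝ, 0 ≤ l ∧ l ≤ 1 ∧ Dens (fun n => s * (n : ℤ) ∈ S) l ∧
      ∀ a ∈ S, 0 < s * a → ¬ (3 : ℤ) ∣ a → 0 < l := by
  obtain ⟨l, h0, h1, hl⟩ := dens_side (Int.odd_iff.2 hd) hd3 hs (S := S) hS
  refine ⟨l, h0, h1, ?_, fun a ha hsa ha3 => ?_⟩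
  · unfold Dens
    exact (HD_ncard hs hl).congr fun N => by rw [side_cnt hs]
  · refine class_pos (Int.odd_iff.2 hd) ?_ hs (S := S) hS ha hsa ha3 hl
    intro h3
    have := hd3.isUnit_of_dvd' h3 dvd_rfl
    rw [Int.isUnit_iff] at this
    omega

/-- from power saving to proportions -/
theorem rel_of {r : ℕ} {δ K l : ℝ} (hδ : 0 < δ) (hδ1 : δ ≤ 1) (hK : 1 ≤ K) {P : ℕ → Prop} {N₁ : ℕ}
    (h : ∀ N : ℕ, N₁ ≤ N → ∀ D : Datum δ N r, |cnt (fun n => D.Mem n ∧ P n) N - D.vol * cnt P N| ≤ K * (N : ℝ) ^ (1 - δ / 4000))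
    (hl : Dens P l) {ε : ℝ} (hε : 0 < ε) : ∃ N₀ : ℕ, ∀ N : ℕ, N₀ ≤ N → ∀ D : Datum δ N r, (N : ℝ) ^ (-(δ / 8000)) ≤ D.vol →
      |cnt (fun n => D.Mem n ∧ P n) N - l * D.vol * N| ≤ ε * D.vol * N := by
  have h1 : ∀ᶠ N : ℕ in atTop, |cnt P N / N - l| < ε / 2 := by
    have := hl.eventually (Metric.ball_mem_nhds l (by positivity : 0 < ε / 2))
    filter_upwards [this] with N hN
    rwa [Real.dist_eq] at hN
  have h2 : ∀ᶠ N : ℕ in atTop, 2 * K / ε ≤ (N : ℝ) ^ (δ / 8000) :=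
    ((tendsto_rpow_atTop (by positivity : 0 < δ / 8000)).comp tendsto_natCast_atTop_atTop).eventually_ge_atTop _
  obtain ⟨N₀, hN₀⟩ := eventually_atTop.1 ((h1.and h2).and ((eventually_ge_atTop N₁).and (eventually_ge_atTop 1)))
  refine ⟨N₀, fun N hN D hD => ?_⟩
  obtain ⟨⟨a1, a2⟩, a3, a4⟩ := hN₀ N hN
  have hN0 : (0 : ℝ) < N := by exact_mod_cast a4
  have b1 := h N a3 D
  have hv := D.vol_nonneg
  have b2 : |D.vol * cnt P N - l * D.vol * N| ≤ ε / 2 * D.vol * N := by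
    have e : D.vol * cnt P N - l * D.vol * N = D.vol * N * (cnt P N / N - l) := by field_simp
    rw [e, abs_mul, abs_of_nonneg (by positivity)]
    calc D.vol * N * |cnt P N / N - l| ≤ D.vol * N * (ε / 2) := mul_le_mul_of_nonneg_left a1.le (by positivity)
      _ = _ := by ring
  have b3 : K * (N : ℝ) ^ (1 - δ / 4000) ≤ ε / 2 * D.vol * N := by
    have e1 : (N : ℝ) ^ (1 - δ / 4000) = N * ((N : ℝ) ^ (-(δ / 8000)) * (N : ℝ) ^ (-(δ / 8000))) := by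
      rw [← Real.rpow_add hN0, ← Real.rpow_one_add' hN0.le (by linarith)]
      congr 1; ring
    have e2 : K * (N : ℝ) ^ (-(δ / 8000)) ≤ ε / 2 := by
      rw [Real.rpow_neg hN0.le]
      rw [div_le_iff₀ hε] at a2
      have h3 : 0 < (N : ℝ) ^ (δ / 8000) := Real.rpow_pos_of_pos hN0 _
      rw [← div_eq_mul_inv, div_le_iff₀ h3]
      linarith
    have h4 : 0 < (N : ℝ) ^ (-(δ / 8000)) := Real.rpow_pos_of_pos hN0 _
    calc K * (N : ℝ) ^ (1 - δ / 4000) = (K * (N : ℝ) ^ (-(δ / 8000))) * (N : ℝ) ^ (-(δ / 8000)) * N := by rw [e1]; ring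
      _ ≤ (ε / 2) * (N : ℝ) ^ (-(δ / 8000)) * N := by gcongr
      _ ≤ (ε / 2) * D.vol * N := by gcongr
  have b4 := abs_add_le (cnt (fun n => D.Mem n ∧ P n) N - D.vol * cnt P N) (D.vol * cnt P N - l * D.vol * N)
  rw [sub_add_sub_cancel] at b4
  linarith

/-- sparse sets which contain few members suffice -/
theorem zero_of {r : ℕ} {δ l : ℝ} (hδ : 0 < δ) {P : ℕ → Prop} (hl0 : 0 ≤ l)
    (h : ∀ ε : ℝ, 0 < ε → ∃ N₀ : ℕ, ∀ N : ℕ, N₀ ≤ N → ∀ D : Datum δ N r, (N : ℝ) ^ (-(δ / 8000)) ≤ D.vol →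
      |cnt (fun n => D.Mem n ∧ P n) N - l * D.vol * N| ≤ ε * D.vol * N)
    (hfew : ∀ ε : ℝ, 0 < ε → ∀ N₀ : ℕ, ∃ N : ℕ, N₀ ≤ N ∧ ∃ D : Datum δ N r, (N : ℝ) ^ (-(δ / 8000)) ≤ D.vol ∧
      cnt (fun n => D.Mem n ∧ P n) N ≤ ε * D.vol * N) : l = 0 := by
  by_contra hne
  have hl : 0 < l := lt_of_le_of_ne hl0 (Ne.symm hne)
  obtain ⟨N₀, hN₀⟩ := h (l / 4) (by positivity)
  obtain ⟨N, hN, D, hD, hc⟩ := hfew (l / 4) (by positivity) (max N₀ 1)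
  have hN1 : (0 : ℝ) < N := by
    have : 1 ≤ N := (le_max_right _ _).trans hN
    exact_mod_cast this
  have h1 := hN₀ N ((le_max_left _ _).trans hN) D hD
  have hv : 0 < D.vol := lt_of_lt_of_le (Real.rpow_pos_of_pos hN1 _) hD
  have h2 := (abs_le.1 h1).1
  have h3 : 0 < l * (D.vol * N) := by positivity
  nlinarith

/-- the laws for one invariant set -/
theorem inv_rel (r : ℕ) (δ : ℝ) (hδ : 0 < δ) (hδ1 : δ ≤ 1) (hd : d % 2 = 1) (hd3 : IsCoprime d 3) {s : ℤ}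
    (hs : s = 1 ∨ s = -1) {S : Set ℤ} (hS : ∀ x, x ∈ S ↔ Td d x ∈ S) {l : ℝ}
    (hl : Dens (fun n => s * (n : ℤ) ∈ S) l) (ε : ℝ) (hε : 0 < ε) :
    ∃ N₀ : ℕ, ∀ N : ℕ, N₀ ≤ N → ∀ D : Datum δ N r, (N : ℝ) ^ (-(δ / 8000)) ≤ D.vol →
      |cnt (fun n => D.Mem n ∧ s * (n : ℤ) ∈ S) N - l * D.vol * N| ≤ ε * D.vol * N := by
  obtain ⟨K, hK, h⟩ := inv_sets r δ hδ hδ1
  have h2 : ∀ᶠ N : ℕ in atTop, |(d : ℝ)| ≤ (N : ℝ) ^ (δ / 200) :=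
    ((tendsto_rpow_atTop (by positivity : 0 < δ / 200)).comp tendsto_natCast_atTop_atTop).eventually_ge_atTop _
  obtain ⟨N₁, hN₁⟩ := eventually_atTop.1 (h2.and (eventually_ge_atTop 1))
  exact rel_of (N₁ := N₁) hδ hδ1 hK (fun N hN D => h N (hN₁ N hN).2 D d hd (hN₁ N hN).1 s hs S hS N le_rfl) hl hε

/-- the example of the inverses modulo `p` -/
theorem inv_mem {δ : ℝ} {N : ℕ} {p : ℕ} (hp : p.Prime) (h2 : 2 < p) (hN : 1 ≤ N) (hδ : 0 < δ) (h3 : (N : ℝ) ^ δ ≤ p)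
    (h4 : (p : ℝ) ≤ (N : ℝ) ^ (2 - δ)) (α : ZMod p) (l : ℕ) (hl : l ≤ p) (n : ℕ) :
    (Datum.inv hp h2 hN hδ h3 h4 α l hl).Mem n ↔ ¬ p ∣ n ∧ ∃ j : ℕ, j < l ∧ (n : ZMod p)⁻¹ = α + (j : ZMod p) := by
  haveI := Fact.mk hp
  unfold Datum.Mem Datum.inv
  simp only [eval_X, eval_one, Fin.forall_fin_one, ne_eq]
  rw [ZMod.natCast_eq_zero_iff]
  apply and_congr_right
  intro hn
  have hn0 : (n : ZMod p) ≠ 0 := by
    rw [ne_eq, ZMod.natCast_eq_zero_iff]; exact hn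
  constructor
  · rintro ⟨j, hj, h⟩
    exact ⟨j, hj, inv_eq_of_mul_eq_one_left h.symm⟩
  · rintro ⟨j, hj, h⟩
    refine ⟨j, hj, ?_⟩
    rw [← h, inv_mul_cancel₀ hn0]

theorem inv_vol {δ : ℝ} {N : ℕ} {p : ℕ} (hp : p.Prime) (h2 : 2 < p) (hN : 1 ≤ N) (hδ : 0 < δ) (h3 : (N : ℝ) ^ δ ≤ p)
    (h4 : (p : ℝ) ≤ (N : ℝ) ^ (2 - δ)) (α : ZMod p) (l : ℕ) (hl : l ≤ p) :
    (Datum.inv hp h2 hN hδ h3 h4 α l hl).vol = (l : ℝ) / p := by
  unfold Datum.vol Datum.inv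
  rw [Fin.prod_univ_one]

/-- `n` has a multiplicative inverse modulo `p` in `α, α + 1, …, α + (l - 1)` -/
def InvIn (p : ℕ) (α : ZMod p) (l n : ℕ) : Prop := ¬ p ∣ n ∧ ∃ j : ℕ, j < l ∧ (n : ZMod p)⁻¹ = α + (j : ZMod p)

/-- the relative law for the inverses -/
theorem inv_law {δ l : ℝ} (hδ : 0 < δ) {P : ℕ → Prop} {ε : ℝ}
    (h : ∃ N₀ : ℕ, ∀ N : ℕ, N₀ ≤ N → ∀ D : Datum δ N 1, (N : ℝ) ^ (-(δ / 8000)) ≤ D.vol →
      |cnt (fun n => D.Mem n ∧ P n) N - l * D.vol * N| ≤ ε * D.vol * N) :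
    ∃ N₀ : ℕ, ∀ N : ℕ, N₀ ≤ N → ∀ p : ℕ, p.Prime → (N : ℝ) ^ δ ≤ p → (p : ℝ) ≤ (N : ℝ) ^ (2 - δ) → ∀ (α : ZMod p) (k : ℕ),
      k ≤ p → (N : ℝ) ^ (-(δ / 8000)) ≤ (k : ℝ) / p →
      |cnt (fun n => InvIn p α k n ∧ P n) N - l * ((k : ℝ) / p) * N| ≤ ε * ((k : ℝ) / p) * N := by
  obtain ⟨N₀, hN₀⟩ := h
  have h2 : ∀ᶠ N : ℕ in atTop, (3 : ℝ) ≤ (N : ℝ) ^ δ :=
    ((tendsto_rpow_atTop hδ).comp tendsto_natCast_atTop_atTop).eventually_ge_atTop _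
  obtain ⟨N₁, hN₁⟩ := eventually_atTop.1 h2
  refine ⟨max (max N₀ N₁) 1, fun N hN p hp h3 h4 α k hk hv => ?_⟩
  have a0 : 1 ≤ N := (le_max_right _ _).trans hN
  have a1 : N₀ ≤ N := (le_max_left _ _).trans ((le_max_left _ _).trans hN)
  have a2 : N₁ ≤ N := (le_max_right _ _).trans ((le_max_left _ _).trans hN)
  have hp2 : 2 < p := by
    have := (hN₁ N a2).trans h3
    have h5 : 3 ≤ p := by exact_mod_cast this
    omega
  have h6 := hN₀ N a1 (Datum.inv hp hp2 a0 hδ h3 h4 α k hk)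
  rw [inv_vol hp hp2 a0 hδ h3 h4 α k hk] at h6
  have e : (fun n => (Datum.inv hp hp2 a0 hδ h3 h4 α k hk).Mem n ∧ P n) = fun n => InvIn p α k n ∧ P n := by
    funext n
    rw [inv_mem hp hp2 a0 hδ h3 h4 α k hk n]
    rfl
  rw [e] at h6
  exact h6 hv

end Run7.h914.MC
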