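import Pool.Agent.Run7.h914.MC.Gd
import Pool.Agent.Run7.h914.MC.Cor
import Pool.Agent.Y965.PS.Par

/-! Choice of the parameters. -/

set_option autoImplicit false

namespace Run7.h914.MC

open Finset Polynomial Pool.Agent.Y965.PS Pool.Agent.Y965.PL

/-- small correlations along progressions -/
def Corr (δ : ℝ) (N : ℕ) (z : ℕ → ℂ) : Prop :=
  (∀ m, ‖z m‖ ≤ 1) ∧ ∀ u h m0 J : ℕ, 1 ≤ h → (h : ℝ) ≤ (N : ℝ) ^ (δ / 10) → ((2 : ℝ) ^ (5 * u)) ≤ (N : ℝ) ^ (δ / 20) →
    (∀ j < J, m0 + 2 ^ (5 * u) * j + h ≤ N) →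
    ‖∑ j ∈ range J, z (m0 + 2 ^ (5 * u) * j) * (starRingEnd ℂ) (z (m0 + 2 ^ (5 * u) * j + h))‖ ≤ (N : ℝ) ^ (1 - δ / 4)

/-- THE CRITERION -/
theorem crit (δ : ℝ) (hδ : 0 < δ) (hδ1 : δ ≤ 1) : ∃ C : ℝ, 1 ≤ C ∧ ∀ N : ℕ, 1 ≤ N → ∀ z : ℕ → ℂ, Corr δ N z →
    ∀ d : ℤ, d % 2 = 1 → |(d : ℝ)| ≤ (N : ℝ) ^ (δ / 80) → ∀ F : ℕ → ℂ, Syn d N F →
      ‖∑ m ∈ Icc 1 N, F m * z m‖ ≤ C * (N : ℝ) ^ (1 - δ / 1000) := by
  classical
  set K : ℝ := 1 + 16000 / δ with hK
  have hK0 : 1 ≤ K := by rw [hK]; have : 0 < 16000 / δ := by positivity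
                         linarith
  refine ⟨Real.exp (100 / δ) + 30 * K + 100, by have := Real.exp_pos (100 / δ); linarith, ?_⟩
  intro N hN z hz d hd hdN F hF
  have hNpos : (0 : ℝ) < N := by exact_mod_cast hN
  set L := Real.log N with hLdef
  have hL0 : 0 ≤ L := Real.log_natCast_nonneg N
  have hexp : Real.exp L = N := Real.exp_log hNpos
  have hpow : ∀ a : ℝ, (N : ℝ) ^ a = Real.exp (a * L) := by
    intro a
    rw [← hexp, ← Real.exp_mul]; congr 1; ring
  have hterm : ∀ m, ‖F m * z m‖ ≤ 1 := by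
    intro m
    rw [norm_mul]
    exact mul_le_one₀ (hF.1 m) (norm_nonneg _) (hz.1 m)
  have htriv : ∀ S : Finset ℕ, ‖∑ m ∈ S, F m * z m‖ ≤ S.card := by
    intro S
    refine (norm_sum_le _ _).trans ((sum_le_sum fun m _ => hterm m).trans ?_)
    rw [sum_const, nsmul_eq_mul, mul_one]
  rw [hpow]
  set E := Real.exp ((1 - δ / 1000) * L) with hE
  have hE0 : 0 < E := Real.exp_pos _
  have hE1 : 1 ≤ E := Real.one_le_exp (mul_nonneg (by linarith) hL0)
  rcases lt_or_ge L (100 / δ) with hL | hL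
  · have h1 := htriv (Icc 1 N)
    rw [Nat.card_Icc, Nat.add_sub_cancel] at h1
    have h2 : (N : ℝ) ≤ Real.exp (100 / δ) := by rw [← hexp]; exact Real.exp_le_exp.2 hL.le
    have h3 := Real.exp_pos (100 / δ)
    have h4 : Real.exp (100 / δ) * 1 ≤ Real.exp (100 / δ) * E := mul_le_mul_of_nonneg_left hE1 h3.le
    have h5 : 0 ≤ K * E := by positivity
    have h6 : (Real.exp (100 / δ) + 30 * K + 100) * E = Real.exp (100 / δ) * E + 30 * (K * E) + 100 * E := by ring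
    rw [h6]
    linarith
  have hδL : 100 ≤ δ * L := by
    rw [div_le_iff₀ hδ] at hL
    linarith
  have hδL1 : δ * L ≤ L := by
    have := mul_le_mul_of_nonneg_right hδ1 hL0
    linarith
  have hL100 : 100 ≤ L := hδL.trans hδL1
  set u := ⌊δ * L / 80⌋₊ with hu
  have hu1 : (u : ℝ) ≤ δ * L / 80 := Nat.floor_le (by positivity)
  have hu2 : δ * L / 80 < u + 1 := Nat.lt_floor_add_one _
  have hu0 : (0 : ℝ) ≤ u := Nat.cast_nonneg u
  set R := Real.exp (δ * L / 80) with hR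
  have hR0 : 0 < R := Real.exp_pos _
  have hR1 : 1 ≤ R := Real.one_le_exp (by positivity)
  have hdR : |(d : ℝ)| ≤ Real.exp (δ * L / 80) := by
    rw [hpow] at hdN
    refine hdN.trans (le_of_eq ?_); congr 1; ring
  have hd1 := abs_one_le hd
  have hq32 : ((2 : ℝ) ^ (5 * u)) ≤ Real.exp (3.5 * u) := by
    rw [pow_mul, show ((2 : ℝ) ^ 5) = 32 by norm_num]
    exact pow_exp_le (by norm_num) exp_c4 u
  obtain ⟨N1, hN1⟩ : ∃ N1 : ℕ, N1 = 2 ^ (5 * u) := ⟨_, rfl⟩
  have hN1R : (N1 : ℝ) = 2 ^ (5 * u) := by rw [hN1]; push_cast; rfl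
  have hN1pos : 1 ≤ N1 := by rw [hN1]; exact Nat.one_le_two_pow
  have hN1N : (N1 : ℝ) ≤ Real.exp (0.04375 * (δ * L)) := by
    rw [hN1R]
    refine hq32.trans (Real.exp_le_exp.2 ?_)
    linarith
  have hN1N' : N1 ≤ N := by
    have h1 : (N1 : ℝ) ≤ N := by
      rw [← hexp]; exact hN1N.trans (Real.exp_le_exp.2 (by linarith))
    exact_mod_cast h1
  have hH : |(d : ℝ)| * R * (32 / 9) ^ u ≤ Real.exp (0.06875 * (δ * L)) := by
    have h1 : (32 / 9 : ℝ) ^ u ≤ Real.exp (3.5 * u) :=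
      (pow_le_pow_left₀ (by norm_num) (by norm_num : (32 / 9 : ℝ) ≤ 32) u).trans (pow_exp_le (by norm_num) exp_c4 u)
    calc |(d : ℝ)| * R * (32 / 9) ^ u ≤ Real.exp (δ * L / 80) * Real.exp (δ * L / 80) * Real.exp (3.5 * u) := by
          gcongr
      _ = Real.exp (δ * L / 80 + δ * L / 80 + 3.5 * u) := by rw [Real.exp_add, Real.exp_add]
      _ ≤ _ := Real.exp_le_exp.2 (by linarith)
  -- the good part
  have key := disp' hd u (R := R) hR0.le N1 N hN1.ge hF (z := z) hz.1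
    (β := fun _ => Real.exp ((1 - δ / 4) * L)) (fun _ => (Real.exp_pos _).le) (by
      intro h hh1 hh2 m0 J _ hJ
      have := hz.2 u h m0 J hh1 (by
        rw [hpow]
        refine (hh2.trans hH).trans (Real.exp_le_exp.2 ?_)
        linarith) (by
        rw [hpow, ← hN1R]
        refine hN1N.trans (Real.exp_le_exp.2 ?_)
        linarith) hJ
      rw [hpow] at this
      exact this)
  have hsec : (N : ℝ) + 2 * (2 ^ (5 * u) * ∑ h ∈ Icc 1 ⌊|(d : ℝ)| * R * (32 / 9) ^ u⌋₊, Real.exp ((1 - δ / 4) * L)) ≤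
      3 * Real.exp L := by
    rw [sum_const, Nat.card_Icc, Nat.add_sub_cancel, nsmul_eq_mul]
    have h1 : ((⌊|(d : ℝ)| * R * (32 / 9) ^ u⌋₊ : ℕ) : ℝ) ≤ |(d : ℝ)| * R * (32 / 9) ^ u := Nat.floor_le (by positivity)
    have h2 : (2 : ℝ) ^ (5 * u) * (|(d : ℝ)| * R * (32 / 9) ^ u) ≤ Real.exp (0.1125 * (δ * L)) := by
      rw [← hN1R]
      calc (N1 : ℝ) * (|(d : ℝ)| * R * (32 / 9) ^ u) ≤ Real.exp (0.04375 * (δ * L)) * Real.exp (0.06875 * (δ * L)) :=
            mul_le_mul hN1N hH (by positivity) (Real.exp_pos _).le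
        _ = _ := by rw [← Real.exp_add]; congr 1; ring
    have h3 : (2 : ℝ) ^ (5 * u) * (((⌊|(d : ℝ)| * R * (32 / 9) ^ u⌋₊ : ℕ) : ℝ) * Real.exp ((1 - δ / 4) * L)) ≤ Real.exp L := by
      calc (2 : ℝ) ^ (5 * u) * (((⌊|(d : ℝ)| * R * (32 / 9) ^ u⌋₊ : ℕ) : ℝ) * Real.exp ((1 - δ / 4) * L))
          ≤ (2 : ℝ) ^ (5 * u) * ((|(d : ℝ)| * R * (32 / 9) ^ u) * Real.exp ((1 - δ / 4) * L)) := by gcongr
        _ = ((2 : ℝ) ^ (5 * u) * (|(d : ℝ)| * R * (32 / 9) ^ u)) * Real.exp ((1 - δ / 4) * L) := by ring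
        _ ≤ Real.exp (0.1125 * (δ * L)) * Real.exp ((1 - δ / 4) * L) := by gcongr
        _ = Real.exp (0.1125 * (δ * L) + (1 - δ / 4) * L) := by rw [Real.exp_add]
        _ ≤ _ := Real.exp_le_exp.2 (by linarith)
    rw [hexp] at h3 ⊢
    linarith
  have hfirst : ((u : ℝ) + 1) * (2 * (N * (27 / 32) ^ u + |(d : ℝ)| * R) + 1) ≤ 6 * L * Real.exp ((1 - 0.0020625 * δ) * L) := by
    have g1 : (27 / 32 : ℝ) ^ u ≤ Real.exp (-0.165 * u) := pow_exp_le (by norm_num) c1' u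
    have g2 : N * (27 / 32 : ℝ) ^ u ≤ (32 / 27) * Real.exp ((1 - 0.0020625 * δ) * L) := by
      calc (N : ℝ) * (27 / 32) ^ u ≤ N * Real.exp (-0.165 * u) := mul_le_mul_of_nonneg_left g1 hNpos.le
        _ = Real.exp (L + -0.165 * u) := by rw [Real.exp_add, hexp]
        _ ≤ Real.exp (0.165 + (1 - 0.0020625 * δ) * L) := Real.exp_le_exp.2 (by linarith)
        _ = Real.exp 0.165 * Real.exp ((1 - 0.0020625 * δ) * L) := by rw [Real.exp_add]
        _ ≤ _ := mul_le_mul_of_nonneg_right exp_c1 (Real.exp_pos _).le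
    have g3 : |(d : ℝ)| * R ≤ Real.exp ((1 - 0.0020625 * δ) * L) := by
      calc |(d : ℝ)| * R ≤ Real.exp (δ * L / 80) * Real.exp (δ * L / 80) := by gcongr
        _ = Real.exp (δ * L / 80 + δ * L / 80) := by rw [Real.exp_add]
        _ ≤ _ := Real.exp_le_exp.2 (by linarith)
    have g5 : (1 : ℝ) ≤ Real.exp ((1 - 0.0020625 * δ) * L) := Real.one_le_exp (mul_nonneg (by linarith) hL0)
    have g4 : (u : ℝ) + 1 ≤ L := by linarith
    calc ((u : ℝ) + 1) * (2 * (N * (27 / 32) ^ u + |(d : ℝ)| * R) + 1)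
        ≤ L * (6 * Real.exp ((1 - 0.0020625 * δ) * L)) := by
          apply mul_le_mul g4 _ (by positivity) hL0
          linarith
      _ = _ := by ring
  have hgood : ‖∑ m ∈ GS d u R N1 N, F m * z m‖ ≤ 5 * K * E := by
    have h1 : ‖∑ m ∈ GS d u R N1 N, F m * z m‖ ^ 2 ≤ (5 * K * E) ^ 2 := by
      refine key.trans ?_
      have h2 : ((u + 1) * (2 * (N * (27 / 32) ^ u + |(d : ℝ)| * R) + 1)) *
          (N + 2 * (2 ^ (5 * u) * ∑ h ∈ Icc 1 ⌊|(d : ℝ)| * R * (32 / 9) ^ u⌋₊, Real.exp ((1 - δ / 4) * L))) ≤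
          (6 * L * Real.exp ((1 - 0.0020625 * δ) * L)) * (3 * Real.exp L) :=
        mul_le_mul hfirst hsec (by positivity) (by positivity)
      refine h2.trans ?_
      have h3 : L ≤ K * Real.exp (0.0000625 * (δ * L)) := by
        have h4 := Real.add_one_le_exp (0.0000625 * (δ * L))
        have h5 : L ≤ (16000 / δ) * Real.exp (0.0000625 * (δ * L)) := by
          calc L = (16000 / δ) * (0.0000625 * (δ * L)) := by field_simp; norm_num
            _ ≤ _ := by apply mul_le_mul_of_nonneg_left _ (by positivity); linarith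
        have h6 := Real.exp_pos (0.0000625 * (δ * L))
        have h7 : K * Real.exp (0.0000625 * (δ * L)) = Real.exp (0.0000625 * (δ * L)) + (16000 / δ) * Real.exp (0.0000625 * (δ * L)) := by
          rw [hK]; ring
        rw [h7]; linarith
      have e1 : Real.exp (0.0000625 * (δ * L)) * (Real.exp ((1 - 0.0020625 * δ) * L) * Real.exp L) = E ^ 2 := by
        rw [hE, ← Real.exp_add, ← Real.exp_add, ← Real.exp_nat_mul]; congr 1; push_cast; ring
      calc (6 * L * Real.exp ((1 - 0.0020625 * δ) * L)) * (3 * Real.exp L)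
          = 18 * (L * (Real.exp ((1 - 0.0020625 * δ) * L) * Real.exp L)) := by ring
        _ ≤ 18 * ((K * Real.exp (0.0000625 * (δ * L))) * (Real.exp ((1 - 0.0020625 * δ) * L) * Real.exp L)) := by gcongr
        _ = 18 * K * E ^ 2 := by rw [← e1]; ring
        _ ≤ (5 * K * E) ^ 2 := by
          have e2 : (5 * K * E) ^ 2 = (25 * (K * K)) * E ^ 2 := by ring
          rw [e2]
          apply mul_le_mul_of_nonneg_right _ (by positivity)
          have e3 : 1 * K ≤ K * K := mul_le_mul_of_nonneg_right hK0 (by linarith)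
          linarith
    exact (pow_le_pow_iff_left₀ (norm_nonneg _) (by positivity) two_ne_zero).1 h1
  -- decomposition
  have hdec : ∑ m ∈ Icc 1 N, F m * z m = ∑ m ∈ Icc 1 N1, F m * z m
      + (∑ m ∈ GS d u R N1 N, F m * z m + ∑ m ∈ (Ioc N1 N).filter (fun m : ℕ => ¬ Good d u R (m : ℤ)), F m * z m) := by
    have h1 : Icc 1 N = Icc 1 N1 ∪ Ioc N1 N := by
      ext m; simp only [mem_union, mem_Icc, mem_Ioc]
      omega
    rw [h1, sum_union]
    · congr 1
      unfold GS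
      rw [sum_filter_add_sum_filter_not]
    · rw [Finset.disjoint_left]
      intro m hm hm'
      rw [mem_Icc] at hm
      rw [mem_Ioc] at hm'
      omega
  have p1 : ‖∑ m ∈ Icc 1 N1, F m * z m‖ ≤ E := by
    refine (htriv _).trans ?_
    rw [Nat.card_Icc, Nat.add_sub_cancel]
    refine hN1N.trans (Real.exp_le_exp.2 ?_)
    linarith
  have p2 : ‖∑ m ∈ (Ioc N1 N).filter (fun m : ℕ => ¬ Good d u R (m : ℤ)), F m * z m‖ ≤ 10 * E := by
    refine (htriv _).trans ?_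
    have h3 : (((Ioc N1 N).filter (fun m : ℕ => ¬ Good d u R (m : ℤ))).card : ℝ)
        ≤ (((Icc 1 N).filter fun m : ℕ => ¬ Good d u R (m : ℤ)).card : ℝ) := by
      have : ((Ioc N1 N).filter (fun m : ℕ => ¬ Good d u R (m : ℤ))) ⊆ ((Icc 1 N).filter fun m : ℕ => ¬ Good d u R (m : ℤ)) := by
        intro m hm
        rw [mem_filter, mem_Ioc] at hm
        rw [mem_filter, mem_Icc]
        exact ⟨by omega, hm.2⟩
      exact_mod_cast card_le_card this
    refine h3.trans ((bad_count u hR0 N (hN1 ▸ hN1N')).trans ?_)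
    have g1 : N * (3125 / 3456 : ℝ) ^ u ≤ (3456 / 3125) * E := by
      have g2 : (3125 / 3456 : ℝ) ^ u ≤ Real.exp (-0.08 * u) := pow_exp_le (by norm_num) c2' u
      calc (N : ℝ) * (3125 / 3456) ^ u ≤ N * Real.exp (-0.08 * u) := mul_le_mul_of_nonneg_left g2 hNpos.le
        _ = Real.exp (L + -0.08 * u) := by rw [Real.exp_add, hexp]
        _ ≤ Real.exp (0.08 + (1 - δ / 1000) * L) := Real.exp_le_exp.2 (by linarith)
        _ = Real.exp 0.08 * E := by rw [Real.exp_add]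
        _ ≤ _ := mul_le_mul_of_nonneg_right exp_c2 hE0.le
    have g3 : N * (5 * (u : ℝ) / (4 * R)) ≤ 2 * E := by
      have g4 : (1 : ℝ) / R = Real.exp (-(δ * L / 80)) := by
        rw [hR, one_div, ← Real.exp_neg]
      have g5 : (u : ℝ) ≤ Real.exp (0.01 * (δ * L)) * (5 / 4) := by
        have h6 := Real.add_one_le_exp (0.01 * (δ * L))
        linarith
      calc N * (5 * (u : ℝ) / (4 * R)) = (5 / 4) * u * (N * (1 / R)) := by field_simp
        _ = (5 / 4) * u * Real.exp (L + -(δ * L / 80)) := by rw [g4, Real.exp_add, hexp]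
        _ ≤ (5 / 4) * (Real.exp (0.01 * (δ * L)) * (5 / 4)) * Real.exp (L + -(δ * L / 80)) := by gcongr
        _ = (25 / 16) * Real.exp (0.01 * (δ * L) + (L + -(δ * L / 80))) := by rw [Real.exp_add (0.01 * (δ * L))]; ring
        _ ≤ (25 / 16) * (Real.exp (-(0.0015 * (δ * L))) * E) := by
            apply mul_le_mul_of_nonneg_left _ (by norm_num)
            rw [hE, ← Real.exp_add]
            apply Real.exp_le_exp.2
            linarith
        _ ≤ 2 * E := by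
            have h8 : Real.exp (-(0.0015 * (δ * L))) ≤ 1 := Real.exp_le_one_iff.2 (by linarith)
            have h9 : Real.exp (-(0.0015 * (δ * L))) * E ≤ 1 * E := mul_le_mul_of_nonneg_right h8 hE0.le
            linarith
    have e1 : 2 * (N : ℝ) * (2 * (3125 / 3456) ^ u + 5 * u / (4 * R))
        = 4 * (N * (3125 / 3456 : ℝ) ^ u) + 2 * (N * (5 * (u : ℝ) / (4 * R))) := by ring
    rw [e1]
    linarith
  rw [hdec]
  have h4 := norm_add_le (∑ m ∈ Icc 1 N1, F m * z m)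
    (∑ m ∈ GS d u R N1 N, F m * z m + ∑ m ∈ (Ioc N1 N).filter (fun m : ℕ => ¬ Good d u R (m : ℤ)), F m * z m)
  have h5 := norm_add_le (∑ m ∈ GS d u R N1 N, F m * z m)
    (∑ m ∈ (Ioc N1 N).filter (fun m : ℕ => ¬ Good d u R (m : ℤ)), F m * z m)
  have h6 : 0 < Real.exp (100 / δ) * E := by positivity
  have h7 : 0 ≤ K * E := by positivity
  have h8 : (Real.exp (100 / δ) + 30 * K + 100) * E = Real.exp (100 / δ) * E + 30 * (K * E) + 100 * E := by ring
  have h9 : 5 * K * E = 5 * (K * E) := by ring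
  rw [h9] at hgood
  rw [h8]
  linarith

end Run7.h914.MC
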