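import Pool.Agent.Run7.h914.MC.Exp
import Pool.Agent.Run7.h914.MC.Bx
import Pool.Agent.Run7.h914.Box

/-! The transfer to the integers with given positions of `f i (m) / g (m)` modulo `p`. -/

set_option autoImplicit false

namespace Run7.h914.MC

open Finset Polynomial Pool.Agent.Y965.PS Pool.Agent.Y965.PL

/-- no nontrivial linear combination of the `f i / g` is a polynomial of degree at most two -/
def Fam {p : ℕ} [Fact p.Prime] {r : ℕ} (f : Fin r → (ZMod p)[X]) (g : (ZMod p)[X]) : Prop :=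
  g ≠ 0 ∧ ∀ a : Fin r → ZMod p, a ≠ 0 → NotQuad (∑ i, C (a i) * f i) g

/-- the residues `f i (m) / g (m)` lie in the intervals of length `l i` beginning at `α i` -/
def InB {p : ℕ} [Fact p.Prime] {r : ℕ} (f : Fin r → (ZMod p)[X]) (g : (ZMod p)[X]) (α : Fin r → ZMod p) (l : Fin r → ℕ)
    (m : ℕ) : Prop :=
  g.eval (m : ZMod p) ≠ 0 ∧ ∀ i, ((f i).eval (m : ZMod p) / g.eval (m : ZMod p) - α i).val < l i

/-- the proportion of the box -/
noncomputable def vol (p : ℕ) {r : ℕ} (l : Fin r → ℕ) : ℝ := ∏ i, (l i : ℝ) / p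

theorem vol_nonneg (p : ℕ) {r : ℕ} (l : Fin r → ℕ) : 0 ≤ vol p l := prod_nonneg fun i _ => by positivity

theorem vol_le_one {p : ℕ} (hp : 0 < p) {r : ℕ} {l : Fin r → ℕ} (hl : ∀ i, l i ≤ p) : vol p l ≤ 1 := by
  unfold vol
  apply prod_le_one
  · intro i _; positivity
  · intro i _
    rw [div_le_one (by exact_mod_cast hp)]
    exact_mod_cast hl i

open Classical in
/-- the number of poles -/
theorem poles {p : ℕ} [Fact p.Prime] {g : (ZMod p)[X]} (hg : g ≠ 0) (N : ℕ) :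
    (((Icc 1 N).filter fun m : ℕ => g.eval (m : ZMod p) = 0).card : ℝ) ≤ g.natDegree * ((N : ℝ) / p + 1) := by
  have hp : 0 < p := (Fact.out : p.Prime).pos
  have hsub : ((Icc 1 N).filter fun m : ℕ => g.eval (m : ZMod p) = 0) ⊆
      g.roots.toFinset.biUnion fun x => (Icc 1 N).filter (fun b : ℕ => ((x.val : ℕ) : ZMod p) = b) := by
    intro m hm
    rw [mem_filter] at hm
    rw [mem_biUnion]
    refine ⟨(m : ZMod p), ?_, ?_⟩
    · rw [Multiset.mem_toFinset, mem_roots hg]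
      exact hm.2
    · rw [mem_filter]
      exact ⟨hm.1, by rw [ZMod.natCast_zmod_val]⟩
  have h1 := card_le_card hsub
  have h2 : (g.roots.toFinset.biUnion fun x => (Icc 1 N).filter (fun b : ℕ => ((x.val : ℕ) : ZMod p) = b)).card ≤
      g.natDegree * (N / p + 1) := by
    refine card_biUnion_le.trans ?_
    refine (sum_le_sum fun x _ => Run7.h914.card_class N p x.val hp).trans ?_
    rw [sum_const, smul_eq_mul]
    exact Nat.mul_le_mul_right _ ((Multiset.toFinset_card_le _).trans (card_roots' g))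
  have h3 : ((N / p : ℕ) : ℝ) ≤ (N : ℝ) / p := Nat.cast_div_le
  calc (((Icc 1 N).filter fun m : ℕ => g.eval (m : ZMod p) = 0).card : ℝ) ≤ ((g.natDegree * (N / p + 1) : ℕ) : ℝ) := by
        exact_mod_cast h1.trans h2
    _ = g.natDegree * (((N / p : ℕ) : ℝ) + 1) := by push_cast; ring
    _ ≤ _ := by gcongr

/-- the sums of the combinations -/
theorem comb_phase {p : ℕ} [Fact p.Prime] {r : ℕ} (f : Fin r → (ZMod p)[X]) (g : (ZMod p)[X]) (a : Fin r → ZMod p)
    (x : ZMod p) : ZMod.stdAddChar (∑ i, a i * ((f i).eval x / g.eval x)) = ph (∑ i, C (a i) * f i) g x := by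
  unfold ph
  congr 1
  rw [eval_finsetSum, sum_div]
  apply sum_congr rfl
  intro i _
  rw [eval_mul, eval_C, mul_div_assoc]

open Classical in
/-- THE TRANSFER -/
theorem transfer (r : ℕ) (δ : ℝ) (hδ : 0 < δ) (hδ1 : δ ≤ 1) : ∃ K : ℝ, 1 ≤ K ∧ ∀ N : ℕ, 1 ≤ N →
    ∀ (p : ℕ) [Fact p.Prime], (N : ℝ) ^ δ ≤ p → (p : ℝ) ≤ (N : ℝ) ^ (2 - δ) →
    ∀ (f : Fin r → (ZMod p)[X]) (g : (ZMod p)[X]), (∀ i, ((f i).natDegree : ℝ) ≤ (N : ℝ) ^ (δ / 80)) →
    (g.natDegree : ℝ) ≤ (N : ℝ) ^ (δ / 80) → Fam f g →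
    ∀ d : ℤ, d % 2 = 1 → |(d : ℝ)| ≤ (N : ℝ) ^ (δ / 80) → ∀ F : ℕ → ℂ, Syn d N F →
    ∀ (α : Fin r → ZMod p) (l : Fin r → ℕ), (∀ i, l i ≤ p) →
      ‖∑ m ∈ (Icc 1 N).filter (InB f g α l), F m - (vol p l : ℂ) * ∑ m ∈ Icc 1 N, F m‖ ≤
        K * (N : ℝ) ^ (1 - δ / 2000) := by
  obtain ⟨C₁, hC, h⟩ := main_exp δ hδ hδ1
  set G : ℝ := (2000 * r / δ + 2) ^ r * 3 ^ r with hG
  have hG0 : 0 ≤ G := by positivity
  refine ⟨C₁ * (2 * (4000 * r / δ + 2)) ^ r + 3, ?_, ?_⟩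
  · have : 0 ≤ C₁ * (2 * (4000 * r / δ + 2)) ^ r := by positivity
    linarith
  intro N hN p _ hp1 hp2 f g hf hgd hfam d hd hdN F hF α l hl
  have hNpos : (0 : ℝ) < N := by exact_mod_cast hN
  have hN1 : (1 : ℝ) ≤ N := by exact_mod_cast hN
  have hp0 : (0 : ℝ) < p := by exact_mod_cast (Fact.out : p.Prime).pos
  have hp1' : (1 : ℝ) ≤ p := by exact_mod_cast (Fact.out : p.Prime).one_lt.le
  -- expansion
  have hexpand : ∑ m ∈ Icc 1 N, F m * bx α l (fun i => (f i).eval (m : ZMod p) / g.eval (m : ZMod p)) =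
      ∑ a : Fin r → ZMod p, (∏ i, ivc (α i) (l i) (a i)) * ∑ m ∈ Icc 1 N, F m * ph (∑ i, C (a i) * f i) g (m : ZMod p) := by
    have h1 : ∀ m ∈ Icc 1 N, F m * bx α l (fun i => (f i).eval (m : ZMod p) / g.eval (m : ZMod p)) =
        ∑ a : Fin r → ZMod p, (∏ i, ivc (α i) (l i) (a i)) * (F m * ph (∑ i, C (a i) * f i) g (m : ZMod p)) := by
      intro m _
      rw [bx_inv, mul_sum]
      apply sum_congr rfl
      intro a _
      rw [comb_phase]
      ring
    rw [sum_congr rfl h1, sum_comm]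
    apply sum_congr rfl
    intro a _
    rw [mul_sum]
  have hmainterm : (∏ i, ivc (α i) (l i) ((0 : Fin r → ZMod p) i)) *
      ∑ m ∈ Icc 1 N, F m * ph (∑ i, C ((0 : Fin r → ZMod p) i) * f i) g (m : ZMod p) =
      (vol p l : ℂ) * ∑ m ∈ Icc 1 N, F m := by
    congr 1
    · unfold vol
      push_cast
      apply prod_congr rfl
      intro i _
      rw [Pi.zero_apply, ivc_zero (α i) (hl i)]
    · apply sum_congr rfl
      intro m _
      unfold ph
      simp
  have herr : ‖∑ m ∈ Icc 1 N, F m * bx α l (fun i => (f i).eval (m : ZMod p) / g.eval (m : ZMod p)) -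
      (vol p l : ℂ) * ∑ m ∈ Icc 1 N, F m‖ ≤ (2 + Real.log p) ^ r * (C₁ * (N : ℝ) ^ (1 - δ / 1000)) := by
    rw [hexpand, ← hmainterm, ← add_sum_erase univ _ (mem_univ (0 : Fin r → ZMod p)), add_sub_cancel_left]
    refine (norm_sum_le _ _).trans ?_
    have h1 : ∀ a ∈ univ.erase (0 : Fin r → ZMod p), ‖(∏ i, ivc (α i) (l i) (a i)) *
        ∑ m ∈ Icc 1 N, F m * ph (∑ i, C (a i) * f i) g (m : ZMod p)‖ ≤
        ‖∏ i, ivc (α i) (l i) (a i)‖ * (C₁ * (N : ℝ) ^ (1 - δ / 1000)) := by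
      intro a ha
      rw [norm_mul]
      apply mul_le_mul_of_nonneg_left _ (norm_nonneg _)
      refine h N hN p hp1 hp2 _ g hfam.1 ?_ hgd (hfam.2 a (ne_of_mem_erase ha)) d hd hdN F hF
      have h2 : (∑ i, C (a i) * f i).natDegree ≤ ⌊(N : ℝ) ^ (δ / 80)⌋₊ := by
        apply natDegree_sum_le_of_forall_le
        intro i _
        refine (natDegree_C_mul_le _ _).trans ?_
        exact Nat.le_floor (hf i)
      exact (Nat.cast_le.2 h2).trans (Nat.floor_le (by positivity))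
    refine (sum_le_sum h1).trans ?_
    rw [← sum_mul]
    apply mul_le_mul_of_nonneg_right _ (by positivity)
    refine le_trans ?_ (bx_L1 α hl)
    exact sum_le_sum_of_subset_of_nonneg (erase_subset _ _) fun _ _ _ => norm_nonneg _
  -- the poles
  have hpole : ‖∑ m ∈ (Icc 1 N).filter (InB f g α l), F m -
      ∑ m ∈ Icc 1 N, F m * bx α l (fun i => (f i).eval (m : ZMod p) / g.eval (m : ZMod p))‖ ≤
      g.natDegree * ((N : ℝ) / p + 1) := by
    have h1 : ∑ m ∈ (Icc 1 N).filter (InB f g α l), F m -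
        ∑ m ∈ Icc 1 N, F m * bx α l (fun i => (f i).eval (m : ZMod p) / g.eval (m : ZMod p)) =
        - ∑ m ∈ (Icc 1 N).filter (fun m : ℕ => g.eval (m : ZMod p) = 0),
          F m * bx α l (fun i => (f i).eval (m : ZMod p) / g.eval (m : ZMod p)) := by
      rw [sum_filter, sum_filter, ← sum_sub_distrib, ← sum_neg_distrib]
      apply sum_congr rfl
      intro m _
      by_cases hgm : g.eval (m : ZMod p) = 0
      · have h2 : ¬ InB f g α l m := fun h3 => h3.1 hgm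
        rw [if_neg h2, if_pos hgm, zero_sub]
      · rw [if_neg hgm, neg_zero]
        by_cases hb : ∀ i, ((f i).eval (m : ZMod p) / g.eval (m : ZMod p) - α i).val < l i
        · have h2 : InB f g α l m := ⟨hgm, hb⟩
          rw [if_pos h2]
          unfold bx
          rw [if_pos hb, mul_one, sub_self]
        · have h2 : ¬ InB f g α l m := fun h3 => hb h3.2
          rw [if_neg h2]
          unfold bx
          rw [if_neg hb, mul_zero, sub_self]
    rw [h1, norm_neg]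
    refine (norm_sum_le _ _).trans ?_
    have h2 : ∀ m ∈ (Icc 1 N).filter (fun m : ℕ => g.eval (m : ZMod p) = 0),
        ‖F m * bx α l (fun i => (f i).eval (m : ZMod p) / g.eval (m : ZMod p))‖ ≤ 1 := by
      intro m _
      rw [norm_mul]
      apply mul_le_one₀ (hF.1 m) (norm_nonneg _)
      unfold bx
      split_ifs <;> simp
    refine (sum_le_sum h2).trans ?_
    rw [sum_const, nsmul_eq_mul, mul_one]
    exact poles hfam.1 N
  -- sizes
  have hN2 : (1 : ℝ) ≤ (N : ℝ) ^ (1 - δ / 2000) := Real.one_le_rpow hN1 (by linarith)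
  have hs1 : (g.natDegree : ℝ) * ((N : ℝ) / p + 1) ≤ 2 * (N : ℝ) ^ (1 - δ / 2000) := by
    have h1 : (N : ℝ) / p ≤ (N : ℝ) ^ (1 - δ) := by
      rw [div_le_iff₀ hp0]
      calc (N : ℝ) = (N : ℝ) ^ (1 - δ) * (N : ℝ) ^ δ := by
            rw [← Real.rpow_add hNpos]; norm_num
        _ ≤ _ := by gcongr
    have h2 : (N : ℝ) ^ (δ / 80) * (N : ℝ) ^ (1 - δ) ≤ (N : ℝ) ^ (1 - δ / 2000) := by
      rw [← Real.rpow_add hNpos]
      exact Real.rpow_le_rpow_of_exponent_le hN1 (by linarith)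
    have h3 : (N : ℝ) ^ (δ / 80) ≤ (N : ℝ) ^ (1 - δ / 2000) :=
      Real.rpow_le_rpow_of_exponent_le hN1 (by linarith)
    calc (g.natDegree : ℝ) * ((N : ℝ) / p + 1) ≤ (N : ℝ) ^ (δ / 80) * ((N : ℝ) ^ (1 - δ) + 1) := by
          gcongr
      _ = (N : ℝ) ^ (δ / 80) * (N : ℝ) ^ (1 - δ) + (N : ℝ) ^ (δ / 80) := by ring
      _ ≤ _ := by linarith
  have hlog : (2 + Real.log p) ^ r ≤ (2 * (4000 * r / δ + 2)) ^ r * (N : ℝ) ^ (δ / 2000) := by
    rcases Nat.eq_zero_or_pos r with hr | hr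
    · subst hr
      simp only [pow_zero, one_mul]
      exact Real.one_le_rpow hN1 (by positivity)
    have hr0 : (0 : ℝ) < r := by exact_mod_cast hr
    have h1 : Real.log p ≤ 2 * Real.log N := by
      have h2 := Real.log_le_log hp0 hp2
      rw [Real.log_rpow hNpos] at h2
      have h3 : 0 ≤ Real.log N := Real.log_natCast_nonneg N
      nlinarith
    have h2 : Real.log N ≤ (2000 * r / δ) * (N : ℝ) ^ (δ / (2000 * r)) := by
      have h3 := Real.log_le_rpow_div (x := (N : ℝ)) hNpos.le (ε := δ / (2000 * r)) (by positivity)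
      refine h3.trans (le_of_eq ?_)
      field_simp
    have h4 : (1 : ℝ) ≤ (N : ℝ) ^ (δ / (2000 * r)) := Real.one_le_rpow hN1 (by positivity)
    have h5 : 2 + Real.log p ≤ (2 * (4000 * r / δ + 2)) * (N : ℝ) ^ (δ / (2000 * r)) := by
      have h6 : (0 : ℝ) ≤ 2000 * r / δ := by positivity
      have h7 : 4000 * (r : ℝ) / δ = 2 * (2000 * r / δ) := by ring
      rw [h7]
      nlinarith
    have hlp : 0 ≤ 2 + Real.log p := by
      have := Real.log_nonneg hp1'
      linarith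
    calc (2 + Real.log p) ^ r ≤ ((2 * (4000 * r / δ + 2)) * (N : ℝ) ^ (δ / (2000 * r))) ^ r :=
          pow_le_pow_left₀ hlp h5 r
      _ = (2 * (4000 * r / δ + 2)) ^ r * (N : ℝ) ^ (δ / 2000) := by
          rw [mul_pow, ← Real.rpow_natCast ((N : ℝ) ^ (δ / (2000 * r))) r, ← Real.rpow_mul hNpos.le]
          congr 2
          field_simp
  have hs2 : (2 + Real.log p) ^ r * (C₁ * (N : ℝ) ^ (1 - δ / 1000)) ≤
      C₁ * (2 * (4000 * r / δ + 2)) ^ r * (N : ℝ) ^ (1 - δ / 2000) := by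
    have e1 : (N : ℝ) ^ (δ / 2000) * (N : ℝ) ^ (1 - δ / 1000) = (N : ℝ) ^ (1 - δ / 2000) := by
      rw [← Real.rpow_add hNpos]; congr 1; ring
    calc (2 + Real.log p) ^ r * (C₁ * (N : ℝ) ^ (1 - δ / 1000))
        ≤ ((2 * (4000 * r / δ + 2)) ^ r * (N : ℝ) ^ (δ / 2000)) * (C₁ * (N : ℝ) ^ (1 - δ / 1000)) :=
          mul_le_mul_of_nonneg_right hlog (by positivity)
      _ = C₁ * (2 * (4000 * r / δ + 2)) ^ r * ((N : ℝ) ^ (δ / 2000) * (N : ℝ) ^ (1 - δ / 1000)) := by ring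
      _ = _ := by rw [e1]
  have htri := norm_add_le (∑ m ∈ (Icc 1 N).filter (InB f g α l), F m -
      ∑ m ∈ Icc 1 N, F m * bx α l (fun i => (f i).eval (m : ZMod p) / g.eval (m : ZMod p)))
    (∑ m ∈ Icc 1 N, F m * bx α l (fun i => (f i).eval (m : ZMod p) / g.eval (m : ZMod p)) -
      (vol p l : ℂ) * ∑ m ∈ Icc 1 N, F m)
  rw [sub_add_sub_cancel] at htri
  refine htri.trans ?_
  calc _ ≤ 2 * (N : ℝ) ^ (1 - δ / 2000) + C₁ * (2 * (4000 * r / δ + 2)) ^ r * (N : ℝ) ^ (1 - δ / 2000) :=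
        add_le_add (hpole.trans hs1) (herr.trans hs2)
    _ ≤ _ := by nlinarith

end Run7.h914.MC
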